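import Pool.Agent.Run7.h569.Rect.Rules

set_option autoImplicit false
set_option maxRecDepth 100000

namespace Run7.h569.Rect.C1

def tab : Nat := 1163202963000485555394107784659748797084444906024051504934719262026066055

def B : Tr (List Nat) :=
  .node (.node (.node (.node (.node .nil [512, 14, 24, 16, 26] .nil) [516, 0, 20, 4, 24] (.node .nil
  [513, 10, 20, 14, 24] .nil)) [513, 4, 14, 8, 18] (.node (.node .nil [1, 13, 23, 17, 27] .nil) [2,
  11, 21, 17, 27] (.node .nil [3, 1, 11, 9, 19] .nil))) [2, 1, 11, 7, 17] (.node (.node (.node .nil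
  [3, 11, 21, 19, 29] .nil) [6, 1, 21, 9, 29] (.node .nil [4, 3, 23, 7, 27] .nil)) [2, 3, 13, 9,
  19] (.node (.node .nil [0, 7, 17, 9, 19] .nil) [0, 11, 21, 13, 23] (.node .nil [513, 0, 10, 4, 14]
  .nil)))) [516, 4, 24, 8, 28] (.node (.node (.node (.node .nil [0, 17, 27, 19, 29] .nil) [512, 12,
  22, 14, 24] (.node .nil [609, 24, 26, 4, 6] .nil)) [97, 27, 29, 7, 9] (.node (.node .nil [512, 4,
  14, 6, 16] .nil) [0, 1, 11, 3, 13] (.node .nil [5, 1, 21, 7, 27] .nil))) [609, 22, 24, 2,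
  4] (.node (.node (.node .nil [512, 2, 12, 4, 14] .nil) [1, 3, 13, 7, 17] (.node .nil [97, 21, 23,
  1, 3] .nil)) [513, 14, 24, 18, 28] (.node (.node .nil [5, 3, 23, 9, 29] .nil) [2, 13, 23, 19, 29]
  .nil)))

def L : Tr (List Nat) :=
  .node (.node (.node (.node (.node .nil [22] .nil) [3, 29, 23] .nil) [21, 13, 29] (.node .nil [26]
  .nil)) [9, 27, 21, 29] (.node (.node (.node .nil [0] .nil) [8] .nil) [13, 29] (.node .nil [13, 23,
  21] .nil))) [23, 21, 13, 29] (.node (.node (.node (.node .nil [21] .nil) [29] .nil) [26,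
  20] (.node .nil [3, 23, 21] .nil)) [27, 21, 29] (.node (.node (.node .nil [10] .nil) [18] .nil)
  [27, 29] (.node .nil [23, 21] .nil)))

def l0 : List (Nat × List Nat × List Nat) :=
  [(0, [23, 21, 13, 29], [28, 26, 6, 58, 18]),
   (1, [9, 27, 21, 29], [18, 8, 58, 40, 22]),
   (2, [27, 21, 29], [3, 6, 34, 32, 58, 40, 56]),
   (3, [21, 13, 29], [1, 4, 5, 48, 30, 20]),
   (4, [26, 20], [46, 14, 48, 30, 2]),
   (5, [13, 29], [7, 14, 46, 24, 4, 28, 6, 9, 38, 8, 40]),
   (6, [27, 29], [11, 16, 36, 44, 6, 50, 32, 40]),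
   (7, [3, 29, 23], [44, 6, 13, 9, 52, 34, 58]),
   (8, [29], [11, 16, 36, 15]),
   (9, [8], [17, 0]),
   (10, [18], [17, 12]),
   (11, [26], [19, 21, 48, 30, 42]),
   (12, [3, 23, 21], [23, 52, 50, 58, 40, 22]),
   (13, [13, 23, 21], [23, 26, 38, 58, 40, 56]),
   (14, [23, 21], [25, 36, 27])]

def l1 : List (Nat × List Nat × List Nat) :=
  [(15, [22], [19, 21, 4, 16, 10]),
   (16, [21], [31, 29]),
   (17, [0], [33, 14]),
   (18, [10], [33, 46])]

def lems : List (Nat × List Nat × List Nat) :=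
  l0 ++ (l1)

def fx : List Nat := [5, 15, 25]

def M0 : Nat := 33587232

def last : List Nat :=
  [37, 35, 21, 19, 54]

theorem hl0 : l0.all (chkOne B L M0) = true := by decide +kernel

theorem hl1 : l1.all (chkOne B L M0) = true := by decide +kernel

theorem hlems : lems.all (chkOne B L M0) = true :=
  all_append' hl0 (hl1)

theorem hB : B.all (chkRec rectRules tab) = true := by decide +kernel

theorem chk (F : V → Bool) (hF : Respects F rectRules) :
    ¬ ∀ q ∈ pat1, F q.1 = q.2 :=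
  stage tab B L fx M0 lems 19 last hB (by decide +kernel) (by decide +kernel)
    (by decide +kernel) hlems (by decide +kernel) (by decide +kernel) F hF

end Run7.h569.Rect.C1
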