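import Pool.Agent.Run7.h569.Rect.Rules

set_option autoImplicit false
set_option maxRecDepth 100000

namespace Run7.h569.Rect.C2

def tab : Nat := 181489161886487740988067682231482026630

def B : Tr (List Nat) :=
  .node (.node (.node .nil [135, 8, 4, 0] .nil) [583, 3, 5, 7] (.node .nil [519, 1, 7, 13] .nil))
  [135, 14, 10, 6] (.node (.node .nil [7, 2, 8, 14] .nil) [71, 8, 10, 12] .nil)

def L : Tr (List Nat) :=
  .node (.node (.node .nil [1] .nil) [6] .nil) [2] (.node (.node .nil [5] .nil) [12] .nil)

def l0 : List (Nat × List Nat × List Nat) :=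
  [(0, [2], [8]),
   (1, [6], [0]),
   (2, [12], [4]),
   (3, [1], [3, 5, 10]),
   (4, [5], [3, 1, 2])]

def lems : List (Nat × List Nat × List Nat) :=
  l0

def fx : List Nat := [9, 15, 11]

def M0 : Nat := 35328

def last : List Nat :=
  [9, 7, 6]

theorem hl0 : l0.all (chkOne B L M0) = true := by decide +kernel

theorem hlems : lems.all (chkOne B L M0) = true :=
  hl0

theorem hB : B.all (chkRec (rectRules ++ [pat1]) tab) = true := by decide +kernel

theorem chk (F : V → Bool) (hF : Respects F (rectRules ++ [pat1])) :
    ¬ ∀ q ∈ pat2, F q.1 = q.2 :=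
  stage tab B L fx M0 lems 5 last hB (by decide +kernel) (by decide +kernel)
    (by decide +kernel) hlems (by decide +kernel) (by decide +kernel) F hF

end Run7.h569.Rect.C2
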