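import Pool.Agent.Run7.h569.Rect.Rules

set_option autoImplicit false
set_option maxRecDepth 100000

namespace Run7.h569.Rect.C3

def tab : Nat := 245124170740020736328685077544826878053600385936967651994007686

def B : Tr (List Nat) :=
  .node (.node (.node (.node (.node .nil [1, 1, 7, 5, 11] .nil) [101, 15, 19, 1, 5] .nil) [610, 20,
  22, 6, 8] (.node .nil [512, 0, 6, 2, 8] .nil)) [611, 22, 24, 2, 4] (.node (.node (.node .nil [610,
  16, 18, 2, 4] .nil) [4, 7, 15, 11, 19] .nil) [609, 14, 16, 6, 8] (.node .nil [512, 14, 20, 16, 22]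
  .nil))) [512, 2, 8, 4, 10] (.node (.node (.node (.node .nil [512, 16, 22, 18, 24] .nil) [609, 16,
  18, 8, 10] .nil) [101, 21, 25, 7, 11] (.node .nil [610, 22, 24, 8, 10] .nil)) [611, 20, 22, 0,
  2] (.node (.node .nil [610, 14, 16, 0, 2] .nil) [102, 21, 25, 1, 5] (.node .nil [1, 15, 21, 19,
  25] .nil)))

def L : Tr (List Nat) :=
  .node (.node (.node (.node .nil [14] .nil) [7, 11, 15] .nil) [21, 15, 1] (.node .nil [15, 10]
  .nil)) [25, 21, 1, 15] (.node (.node (.node .nil [11] .nil) [11, 15] .nil) [14, 5, 11] (.node .nil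
  [10, 14] .nil))

def l0 : List (Nat × List Nat × List Nat) :=
  [(0, [25, 21, 1, 15], [12, 28, 34]),
   (1, [21, 15, 1], [1, 2, 32, 14]),
   (2, [14, 5, 11], [10, 20, 30]),
   (3, [7, 11, 15], [18, 34, 32, 30, 8, 4]),
   (4, [11, 15], [7, 22, 6, 3]),
   (5, [15, 10], [24, 16, 0, 14, 28, 4]),
   (6, [10, 14], [26, 20, 0, 24, 12]),
   (7, [14], [10, 26, 13, 5, 8, 2]),
   (8, [11], [15, 9])]

def lems : List (Nat × List Nat × List Nat) :=
  l0

def fx : List Nat := [3, 9, 12, 17, 23]

def M0 : Nat := 8524296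

def last : List Nat :=
  [15, 17, 11]

theorem hl0 : l0.all (chkOne B L M0) = true := by decide +kernel

theorem hlems : lems.all (chkOne B L M0) = true :=
  hl0

theorem hB : B.all (chkRec ((rectRules ++ [pat1]) ++ [pat2]) tab) = true := by decide +kernel

theorem chk (F : V → Bool) (hF : Respects F ((rectRules ++ [pat1]) ++ [pat2])) :
    ¬ ∀ q ∈ pat3, F q.1 = q.2 :=
  stage tab B L fx M0 lems 9 last hB (by decide +kernel) (by decide +kernel)
    (by decide +kernel) hlems (by decide +kernel) (by decide +kernel) F hF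

end Run7.h569.Rect.C3
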