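import Pool.Agent.Run7.h569.Rect.Rules

set_option autoImplicit false
set_option maxRecDepth 100000

namespace Run7.h569.Rect.C4

def tab : Nat := 3631395490387347004470360917214329931433258990074178430051497027701734625553883627519665074984044723893021410769413169593192311180753858933126248379414671854199401698115334898506190528632737157613855259995818141509765

def B : Tr (List Nat) :=
  .node (.node (.node (.node (.node (.node (.node .nil [7, 28, 42, 56] .nil) [98, 61, 63, 19,
  21] (.node .nil [6, 13, 41, 21, 49] .nil)) [5, 43, 71, 49, 77] (.node (.node .nil [7, 56, 70, 82]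
  .nil) [512, 10, 24, 12, 26] .nil)) [2, 13, 27, 19, 33] (.node (.node (.node .nil [518, 54, 80, 62,
  88] .nil) [615, 5, 7, 9] .nil) [517, 44, 72, 50, 78] (.node (.node .nil [610, 76, 78, 34, 36]
  .nil) [521, 1, 13, 26, 41, 55] .nil))) [610, 62, 64, 20, 22] (.node (.node (.node (.node .nil [7,
  6, 18, 32] .nil) [611, 70, 72, 14, 16] (.node .nil [521, 9, 21, 34, 49, 63] .nil)) [6, 43, 71, 51,
  79] (.node (.node .nil [519, 7, 19, 33] .nil) [519, 3, 15, 29] .nil)) [512, 52, 66, 54,
  68] (.node (.node (.node .nil [3, 25, 39, 33, 47] .nil) [518, 0, 26, 8, 34] .nil) [615, 27, 29,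
  31] (.node (.node .nil [103, 16, 18, 20] .nil) [521, 35, 49, 62, 77, 89] .nil)))) [615, 81, 83,
  85] (.node (.node (.node (.node (.node .nil [519, 41, 55, 69] .nil) [519, 61, 75, 87] (.node .nil
  [102, 55, 59, 1, 5] .nil)) [514, 40, 54, 46, 60] (.node (.node .nil [613, 74, 78, 32, 36] .nil)
  [5, 41, 69, 47, 75] .nil)) [613, 52, 56, 10, 14] (.node (.node (.node .nil [2, 57, 71, 63, 77]
  .nil) [610, 84, 86, 44, 46] .nil) [519, 43, 57, 71] (.node (.node .nil [519, 19, 33, 47] .nil)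
  [517, 38, 66, 44, 72] .nil))) [99, 69, 71, 13, 15] (.node (.node (.node (.node .nil [103, 42, 44,
  46] .nil) [103, 72, 74, 76] (.node .nil [609, 44, 46, 16, 18] .nil)) [615, 19, 21,
  23] (.node (.node .nil [615, 55, 57, 59] .nil) [103, 70, 72, 74] .nil)) [7, 60, 74,
  86] (.node (.node (.node .nil [5, 13, 41, 19, 47] .nil) [5, 31, 59, 37, 65] .nil) [7, 32, 46,
  60] (.node (.node .nil [614, 72, 76, 16, 20] .nil) [519, 47, 61, 75] .nil))))) [614, 68, 72, 12,
  16] (.node (.node (.node (.node (.node (.node .nil [521, 27, 41, 54, 69, 81] .nil) [516, 44, 72,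
  48, 76] (.node .nil [3, 29, 43, 37, 51] .nil)) [517, 16, 44, 22, 50] (.node (.node .nil [4, 15,
  43, 19, 47] .nil) [6, 41, 69, 49, 77] .nil)) [2, 55, 69, 61, 75] (.node (.node (.node .nil [6, 39,
  67, 47, 75] .nil) [3, 39, 53, 47, 61] .nil) [517, 10, 38, 16, 44] (.node (.node .nil [519, 13, 27,
  41] .nil) [613, 60, 64, 18, 22] .nil))) [5, 25, 53, 31, 59] (.node (.node (.node (.node .nil [517,
  28, 56, 34, 62] .nil) [2, 15, 29, 21, 35] (.node .nil [3, 43, 57, 51, 65] .nil)) [4, 43, 71, 47,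
  75] (.node (.node .nil [519, 49, 63, 77] .nil) [97, 69, 71, 41, 43] .nil)) [6, 11, 39, 19,
  47] (.node (.node (.node .nil [615, 11, 13, 15] .nil) [512, 62, 76, 64, 78] .nil) [610, 52, 54,
  10, 12] (.node (.node .nil [615, 67, 69, 71] .nil) [615, 31, 33, 35] .nil)))) [610, 44, 46, 4,
  6] (.node (.node (.node (.node (.node .nil [611, 72, 74, 16, 18] .nil) [519, 21, 35, 49] (.node
  .nil [613, 66, 70, 24, 28] .nil)) [97, 41, 43, 13, 15] (.node (.node .nil [103, 14, 16, 18] .nil)
  [513, 10, 24, 14, 28] .nil)) [5, 15, 43, 21, 49] (.node (.node (.node .nil [513, 52, 66, 56, 70]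
  .nil) [103, 68, 70, 72] .nil) [516, 12, 40, 16, 44] (.node (.node .nil [516, 40, 68, 44, 72] .nil)
  [103, 44, 46, 48] .nil))) [615, 85, 87, 89] (.node (.node (.node (.node .nil [519, 57, 71, 83]
  .nil) [103, 0, 2, 4] .nil) [516, 16, 44, 20, 48] (.node (.node .nil [609, 72, 74, 44, 46] .nil)
  [6, 15, 43, 23, 51] .nil)) [615, 75, 77, 79] (.node (.node (.node .nil [610, 66, 68, 24, 26] .nil)
  [617, 13, 15, 16, 19, 21] .nil) [519, 15, 29, 43] (.node (.node .nil [103, 40, 42, 44] .nil) [610,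
  82, 84, 42, 44] .nil)))))

def L : Tr (List Nat) :=
  .node (.node (.node (.node .nil [46] .nil) [56, 40] (.node .nil [19] .nil)) [47, 40] (.node (.node
  .nil [12] .nil) [46, 68] (.node .nil [74] .nil))) [18, 47, 40] (.node (.node (.node .nil [69]
  .nil) [40] (.node .nil [20] .nil)) [71, 40] (.node (.node .nil [27] .nil) [69, 47] (.node .nil
  [15] .nil)))

def l0 : List (Nat × List Nat × List Nat) :=
  [(0, [18, 47, 40], [188, 180, 52, 182, 164, 132, 152, 10, 20, 60, 122, 48, 64, 144, 28, 196, 46, 8,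
  108, 148, 112, 200]),
   (1, [47, 40], [188, 180, 1, 178, 160, 70, 184, 50, 40, 114, 74, 24, 30, 18, 44, 8, 42, 100, 32,
  192, 38, 162]),
   (2, [71, 40], [3, 202, 116, 188, 52, 30, 186, 42, 68, 32, 38, 174, 90, 88, 62, 198, 58, 34, 166,
  14, 4, 86, 194]),
   (3, [56, 40], [3, 116, 52, 202, 5, 70, 92, 186, 168, 188, 60, 172, 180, 158, 136, 120, 118, 58,
  66, 16, 82, 142, 2]),
   (4, [40], [52, 188, 3, 116, 202, 172, 5, 70, 92, 186, 28, 168, 46, 108, 7, 6, 200]),
   (5, [46, 68], [9, 84, 0, 116, 138, 190, 30, 186]),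
   (6, [69, 47], [9, 98, 130, 74, 132, 106, 154, 104, 184, 114, 24, 56, 8, 80, 94, 26, 54, 128, 126,
  140, 146, 124, 142, 12]),
   (7, [46], [9, 116, 138, 11, 96, 104, 186, 70, 20]),
   (8, [69], [15, 13]),
   (9, [12], [17, 0]),
   (10, [27], [19, 9, 176]),
   (11, [19], [19, 15, 9, 154]),
   (12, [20], [23, 182]),
   (13, [74], [23, 132]),
   (14, [15], [27, 15, 17, 23, 19, 9, 25, 21, 152, 36, 48, 144, 156, 8, 150, 22, 134, 170, 110, 126,
  102, 72, 76, 86, 78])]

def lems : List (Nat × List Nat × List Nat) :=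
  l0

def fx : List Nat := [17, 30, 45, 58, 73]

def M0 : Nat := 9445021231300888100864

def last : List Nat :=
  [29, 23, 164]

theorem hl0 : l0.all (chkOne B L M0) = true := by decide +kernel

theorem hlems : lems.all (chkOne B L M0) = true :=
  hl0

theorem hB : B.all (chkRec (((rectRules ++ [pat1]) ++ [pat2]) ++ [pat3]) tab) = true := by decide +kernel

theorem chk (F : V → Bool) (hF : Respects F (((rectRules ++ [pat1]) ++ [pat2]) ++ [pat3])) :
    ¬ ∀ q ∈ pat4, F q.1 = q.2 :=
  stage tab B L fx M0 lems 15 last hB (by decide +kernel) (by decide +kernel)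
    (by decide +kernel) hlems (by decide +kernel) (by decide +kernel) F hF

end Run7.h569.Rect.C4
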