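import Pool.Agent.Run7.h569.Rect.Rules

set_option autoImplicit false
set_option maxRecDepth 100000

namespace Run7.h569.Rect.C5

def tab : Nat := 1354167219066100206488093547845023185161195016176973600635008261475266664827844598327328637633812669740519608158923316724683871753583522741066856340330793462150721115655415695451271501482665355566529523302336514929044830833516832828557118086595280411736509458005072168563252310669244329603097414947131836323812210470862721075557859828654908622974757859040059565299676807051126306237338377226406955036200361688239914086620065450645298092039345888796721202356840451411177429608117755143156082197681111678659430469082568156070426148587970544259665728339357235279380848654744428708744220666332983617953268430614762074175655112533026508320962097910977984607856015117716424944614856249896372382131469633361790048932414482561076621481029469845205483541407867196311608671189593065602364491647827792337612448241736611466297814620746560248179043197976374362610472799383365283524939852854668784746133856821046570743575325327027807524636160222981631939923597261071877715340024364463219190864188962657256219038483912955339614953767812397841844673544726637118456571464502212987129607057821791875501990716692253326837914194578013315189483012951442621563446259578463650667793275460815732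

def B : Tr (List Nat) :=
  .node (.node (.node (.node (.node (.node (.node (.node (.node (.node .nil [647, 417, 355, 263]
  .nil) [98, 157, 159, 5, 7] .nil) [519, 269, 373, 441] (.node .nil [72, 74, 86, 32] .nil)) [103,
  136, 138, 140] (.node (.node (.node .nil [520, 71, 139, 83] .nil) [677, 384, 312, 374, 296] .nil)
  [9, 6, 38, 93, 158, 260] (.node .nil [73, 320, 326, 337, 350, 362] .nil))) [73, 28, 38, 47, 50,
  52] (.node (.node (.node (.node .nil [106, 246, 249, 250, 253, 254] .nil) [517, 66, 230, 72, 236]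
  .nil) [585, 407, 415, 424, 435, 441] (.node .nil [99, 467, 469, 145, 147] .nil)) [519, 107, 173,
  275] (.node (.node .nil [647, 341, 251, 161] .nil) [520, 47, 101, 51] (.node .nil [583, 461, 471,
  477] .nil)))) [616, 249, 251, 205] (.node (.node (.node (.node (.node .nil [101, 471, 475, 249,
  253] .nil) [613, 458, 462, 232, 236] .nil) [520, 413, 459, 423] (.node .nil [9, 96, 162, 265, 368,
  438] .nil)) [613, 266, 270, 44, 48] (.node (.node (.node .nil [647, 125, 65, 19] .nil) [585, 133,
  139, 148, 159, 167] .nil) [0, 257, 361, 259, 363] (.node .nil [615, 469, 471, 473] .nil))) [513,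
  158, 260, 162, 264] (.node (.node (.node (.node .nil [0, 421, 467, 423, 469] .nil) [103, 412, 414,
  416] .nil) [649, 415, 353, 260, 167, 107] (.node .nil [34, 203, 249, 17, 51] .nil)) [2, 337, 413,
  343, 419] (.node (.node .nil [647, 455, 415, 353] .nil) [9, 158, 260, 365, 434, 476] (.node .nil
  [584, 121, 123, 61] .nil))))) [583, 325, 335, 349] (.node (.node (.node (.node (.node (.node .nil
  [98, 249, 251, 29, 31] .nil) [576, 232, 246, 200, 202] .nil) [135, 400, 326, 232] (.node .nil
  [616, 81, 83, 59] .nil)) [8, 50, 106, 52] (.node (.node (.node .nil [103, 24, 26, 28] .nil) [647,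
  133, 71, 29] .nil) [647, 423, 363, 267] (.node .nil [71, 250, 262, 270] .nil))) [102, 415, 419,
  71, 75] (.node (.node (.node (.node .nil [135, 166, 106, 52] .nil) [610, 260, 262, 38, 40] .nil)
  [9, 26, 80, 147, 246, 350] (.node .nil [73, 328, 338, 353, 364, 372] .nil)) [520, 81, 147,
  91] (.node (.node .nil [522, 33, 86, 153, 252, 357] .nil) [32, 299, 329, 201, 235] (.node .nil [2,
  249, 353, 255, 359] .nil)))) [135, 396, 314, 212] (.node (.node (.node (.node (.node .nil [647,
  411, 349, 257] .nil) [71, 138, 148, 158] .nil) [679, 305, 291, 289] (.node .nil [104, 130, 132,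
  116] .nil)) [647, 249, 159, 101] (.node (.node .nil [517, 256, 430, 262, 436] .nil) [0, 415, 461,
  417, 463] (.node .nil [2, 243, 347, 249, 353] .nil))) [647, 321, 223,
  137] (.node (.node (.node (.node .nil [99, 367, 369, 41, 43] .nil) [135, 450, 406, 338] .nil)
  [135, 246, 156, 98] (.node .nil [513, 334, 410, 338, 414] .nil)) [615, 411, 413,
  415] (.node (.node .nil [514, 234, 338, 240, 344] .nil) [584, 237, 251, 151] (.node .nil [71, 132,
  138, 148] .nil)))))) [647, 481, 471, 435] (.node (.node (.node (.node (.node (.node (.node .nil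
  [522, 117, 196, 299, 394, 443] .nil) [514, 326, 404, 332, 408] .nil) [8, 110, 178, 112] (.node
  .nil [8, 364, 434, 372] .nil)) [64, 385, 389, 353, 365] (.node (.node (.node .nil [519, 357, 429,
  475] .nil) [4, 327, 453, 331, 457] .nil) [99, 371, 373, 45, 47] (.node .nil [161, 363, 315, 337,
  303] .nil))) [552, 343, 381, 345] (.node (.node (.node (.node .nil [2, 349, 421, 355, 427] .nil)
  [71, 86, 96, 102] .nil) [137, 402, 328, 235, 148, 92] (.node .nil [167, 214, 192, 186] .nil))
  [135, 484, 476, 440] (.node (.node .nil [10, 14, 63, 124, 213, 316] .nil) [647, 141, 85,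
  41] (.node .nil [584, 63, 65, 17] .nil)))) [519, 87, 153, 253] (.node (.node (.node (.node (.node
  .nil [583, 47, 51, 53] .nil) [641, 308, 208, 288, 180] .nil) [135, 136, 80, 36] (.node .nil [34,
  311, 353, 65, 107] .nil)) [137, 318, 220, 133, 70, 28] (.node (.node (.node .nil [647, 123, 63,
  17] .nil) [8, 260, 364, 268] .nil) [611, 370, 372, 44, 46] (.node .nil [519, 233, 337, 413]
  .nil))) [64, 363, 371, 315, 317] (.node (.node (.node (.node .nil [520, 125, 213, 127] .nil) [135,
  320, 222, 136] .nil) [519, 161, 263, 367] (.node .nil [610, 454, 456, 224, 226] .nil)) [72, 274,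
  276, 174] (.node (.node .nil [2, 259, 363, 265, 369] .nil) [8, 246, 350, 258] (.node .nil [586,
  319, 322, 329, 338, 353] .nil))))) [73, 402, 406, 415, 424,
  434] (.node (.node (.node (.node (.node (.node .nil [5, 79, 245, 85, 251] .nil) [520, 153, 253,
  163] .nil) [519, 121, 203, 311] (.node .nil [71, 220, 224, 234] .nil)) [584, 137, 147,
  81] (.node (.node (.node .nil [519, 57, 119, 201] .nil) [130, 343, 253, 287, 179] .nil) [32, 315,
  365, 213, 269] (.node .nil [8, 164, 266, 170] .nil))) [519, 365, 435,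
  477] (.node (.node (.node (.node .nil [72, 400, 404, 326] .nil) [519, 53, 109, 175] .nil) [610,
  348, 350, 78, 80] (.node .nil [522, 3, 28, 83, 148, 249] .nil)) [73, 224, 234, 249, 260,
  268] (.node (.node .nil [583, 231, 245, 257] .nil) [583, 353, 365, 373] (.node .nil [7, 36, 90,
  156] .nil)))) [1, 245, 349, 249, 353] (.node (.node (.node (.node (.node .nil [519, 157, 259, 363]
  .nil) [584, 239, 253, 153] .nil) [544, 200, 234, 120, 148] (.node .nil [513, 338, 414, 342, 418]
  .nil)) [64, 319, 323, 293, 297] (.node (.node .nil [2, 223, 327, 229, 333] .nil) [103, 156, 158,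
  160] (.node .nil [647, 397, 315, 213] .nil))) [73, 228, 238, 253, 264,
  272] (.node (.node (.node (.node .nil [7, 8, 40, 94] .nil) [71, 334, 348, 360] .nil) [135, 122,
  62, 16] (.node .nil [103, 362, 364, 366] .nil)) [137, 460, 424, 365, 268, 172] (.node (.node .nil
  [8, 150, 250, 160] .nil) [104, 90, 92, 60] (.node .nil [7, 236, 340, 416] .nil))))))) [611, 362,
  364, 36, 38] (.node (.node (.node (.node (.node (.node (.node (.node .nil [33, 311, 353, 125, 167]
  .nil) [103, 328, 330, 332] .nil) [519, 27, 81, 147] (.node .nil [521, 131, 223, 326, 405, 453]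
  .nil)) [647, 139, 83, 39] (.node (.node (.node .nil [647, 429, 369, 273] .nil) [649, 321, 223,
  136, 81, 37] .nil) [161, 259, 211, 233, 201] (.node .nil [519, 225, 329, 407] .nil))) [552, 311,
  353, 313] (.node (.node (.node (.node .nil [517, 80, 246, 86, 252] .nil) [545, 210, 260, 64, 106]
  .nil) [137, 412, 350, 259, 164, 104] (.node .nil [679, 387, 363, 315] .nil)) [519, 311, 397,
  445] (.node (.node .nil [8, 424, 470, 434] .nil) [650, 461, 424, 365, 268, 173] (.node .nil [8,
  334, 410, 348] .nil)))) [615, 461, 463, 465] (.node (.node (.node (.node (.node .nil [10, 32, 87,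
  152, 253, 356] .nil) [674, 164, 124, 136, 118] .nil) [649, 399, 323, 224, 139, 83] (.node .nil
  [73, 148, 158, 167, 172, 174] .nil)) [512, 36, 90, 38, 92] (.node (.node (.node .nil [8, 2, 28, 6]
  .nil) [102, 365, 369, 39, 43] .nil) [9, 90, 156, 259, 362, 432] (.node .nil [135, 446, 402, 328]
  .nil))) [583, 137, 147, 157] (.node (.node (.node (.node .nil [35, 201, 235, 1, 11] .nil) [520,
  157, 259, 165] .nil) [519, 71, 139, 235] (.node .nil [521, 29, 83, 148, 249, 353] .nil)) [520,
  341, 417, 355] (.node (.node .nil [616, 343, 345, 309] .nil) [519, 221, 323, 403] (.node .nil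
  [583, 201, 203, 211] .nil))))) [106, 360, 363, 364, 367,
  368] (.node (.node (.node (.node (.node (.node .nil [583, 159, 167, 173] .nil) [584, 297, 301,
  199] .nil) [135, 130, 68, 26] (.node .nil [101, 259, 263, 37, 41] .nil)) [616, 327, 329,
  299] (.node (.node (.node .nil [583, 129, 133, 139] .nil) [615, 249, 251, 253] .nil) [137, 218,
  130, 69, 26, 4] (.node .nil [71, 414, 424, 434] .nil))) [522, 71, 138, 235, 338,
  415] (.node (.node (.node (.node .nil [135, 328, 234, 148] .nil) [610, 338, 340, 70, 72] .nil)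
  [101, 337, 341, 69, 73] (.node .nil [584, 303, 311, 203] .nil)) [586, 249, 260, 269, 274,
  277] (.node (.node .nil [7, 222, 326, 404] .nil) [616, 253, 255, 209] (.node .nil [138, 470, 435,
  372, 275, 174] .nil)))) [7, 132, 224, 328] (.node (.node (.node (.node (.node .nil [8, 426, 472,
  436] .nil) [101, 249, 253, 29, 33] .nil) [71, 28, 38, 46] (.node .nil [547, 302, 338, 16, 50]
  .nil)) [106, 346, 349, 350, 353, 354] (.node (.node .nil [647, 221, 133, 71] .nil) [71, 478, 480,
  484] (.node .nil [545, 314, 364, 126, 172] .nil))) [71, 406, 414, 424] (.node (.node (.node (.node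
  .nil [72, 240, 254, 154] .nil) [583, 295, 299, 303] .nil) [138, 302, 203, 122, 63, 16] (.node .nil
  [615, 79, 81, 83] .nil)) [135, 196, 118, 58] (.node (.node .nil [8, 220, 322, 224] .nil) [520,
  195, 295, 197] (.node .nil [137, 406, 338, 249, 158, 100] .nil)))))) [521, 139, 235, 338, 415,
  461] (.node (.node (.node (.node (.node (.node (.node .nil [647, 201, 121, 61] .nil) [519, 129,
  221, 323] .nil) [162, 259, 211, 223, 197] (.node .nil [583, 225, 235, 249] .nil)) [583, 71, 83,
  93] (.node (.node (.node .nil [10, 86, 153, 252, 357, 428] .nil) [517, 348, 466, 354, 472] .nil)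
  [10, 0, 17, 64, 127, 216] (.node .nil [71, 350, 362, 370] .nil))) [7, 406, 454,
  478] (.node (.node (.node (.node .nil [71, 72, 84, 94] .nil) [545, 392, 402, 200, 234] .nil) [586,
  329, 338, 353, 364, 373] (.node .nil [71, 322, 328, 338] .nil)) [647, 323, 225, 139] (.node (.node
  .nil [1, 223, 327, 227, 331] .nil) [679, 249, 205, 189] (.node .nil [674, 362, 314, 326, 298]
  .nil)))) [40, 348, 382, 350] (.node (.node (.node (.node (.node .nil [649, 471, 435, 372, 275,
  175] .nil) [519, 73, 141, 237] .nil) [616, 363, 365, 315] (.node .nil [37, 291, 343, 55, 103]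
  .nil)) [74, 298, 303, 310, 315, 316] (.node (.node (.node .nil [35, 311, 353, 19, 53] .nil) [647,
  483, 473, 437] .nil) [72, 282, 284, 176] (.node .nil [610, 458, 460, 232, 234] .nil))) [7, 146,
  246, 350] (.node (.node (.node (.node .nil [583, 23, 29, 39] .nil) [135, 410, 348, 256] .nil)
  [162, 171, 127, 147, 121] (.node .nil [586, 377, 378, 383, 386, 391] .nil)) [7, 234, 338,
  414] (.node (.node .nil [7, 138, 234, 338] .nil) [520, 349, 421, 361] (.node .nil [98, 365, 367,
  93, 95] .nil))))) [163, 389, 365, 375, 323] (.node (.node (.node (.node (.node (.node .nil [546,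
  210, 260, 18, 52] .nil) [521, 153, 253, 356, 429, 475] .nil) [520, 403, 451, 407] (.node .nil
  [517, 244, 420, 250, 426] .nil)) [583, 203, 211, 213] (.node (.node (.node .nil [104, 212, 214,
  190] .nil) [520, 249, 353, 261] .nil) [9, 46, 100, 167, 268, 372] (.node .nil [99, 453, 455, 131,
  133] .nil))) [72, 318, 322, 220] (.node (.node (.node (.node .nil [614, 350, 354, 26, 30] .nil)
  [647, 409, 343, 253] .nil) [618, 245, 246, 249, 250, 253] (.node .nil [613, 350, 354, 80, 84]
  .nil)) [512, 222, 326, 224, 328] (.node (.node .nil [585, 83, 93, 100, 107, 109] .nil) [586, 227,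
  236, 251, 262, 271] (.node .nil [72, 328, 338, 234] .nil)))) [519, 415, 461,
  481] (.node (.node (.node (.node (.node .nil [583, 167, 173, 175] .nil) [585, 323, 329, 338, 353,
  365] .nil) [649, 451, 407, 338, 249, 159] (.node .nil [135, 460, 424, 364] .nil)) [103, 468, 470,
  472] (.node (.node .nil [677, 390, 316, 378, 302] .nil) [519, 321, 401, 449] (.node .nil [2, 99,
  165, 103, 169] .nil))) [609, 244, 246, 78, 80] (.node (.node (.node (.node .nil [546, 392, 402,
  120, 148] .nil) [7, 122, 210, 314] .nil) [7, 356, 428, 474] (.node .nil [7, 86, 152, 252] .nil))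
  [522, 39, 92, 159, 260, 365] (.node (.node .nil [137, 322, 224, 139, 82, 38] .nil) [7, 124, 212,
  316] (.node .nil [74, 292, 297, 300, 305, 312] .nil)))))))) [650, 455, 414, 353, 260,
  167] (.node (.node (.node (.node (.node (.node (.node (.node (.node .nil [581, 246, 266, 178, 184]
  .nil) [649, 405, 337, 246, 157, 99] .nil) [514, 246, 350, 252, 356] (.node .nil [647, 365, 269,
  173] .nil)) [104, 26, 28, 12] (.node (.node (.node .nil [519, 329, 407, 455] .nil) [135, 124, 64,
  18] .nil) [584, 399, 403, 323] (.node .nil [103, 470, 472, 474] .nil))) [520, 327, 405,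
  337] (.node (.node (.node (.node .nil [647, 315, 213, 127] .nil) [583, 91, 99, 105] .nil) [98,
  233, 235, 21, 23] (.node .nil [642, 380, 278, 290, 188] .nil)) [71, 452, 458, 468] (.node (.node
  .nil [104, 232, 234, 200] .nil) [617, 257, 259, 260, 263, 265] (.node .nil [584, 355, 367, 263]
  .nil)))) [135, 434, 372, 274] (.node (.node (.node (.node (.node .nil [69, 249, 269, 181, 187]
  .nil) [584, 459, 469, 423] .nil) [72, 304, 312, 204] (.node .nil [552, 335, 379, 337] .nil)) [103,
  242, 244, 246] (.node (.node (.node .nil [520, 357, 429, 369] .nil) [546, 396, 424, 126, 172]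
  .nil) [71, 148, 158, 166] (.node .nil [517, 350, 468, 356, 474] .nil))) [613, 246, 250, 26,
  30] (.node (.node (.node (.node .nil [649, 479, 461, 424, 365, 269] .nil) [647, 327, 233, 147]
  .nil) [10, 140, 237, 340, 417, 462] (.node .nil [10, 66, 135, 230, 335, 410] .nil)) [586, 295,
  298, 303, 310, 315] (.node (.node .nil [72, 196, 200, 118] .nil) [106, 466, 469, 470, 473,
  474] (.node .nil [519, 39, 93, 159] .nil))))) [552, 253, 279,
  255] (.node (.node (.node (.node (.node (.node .nil [519, 249, 353, 425] .nil) [583, 333, 343,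
  357] .nil) [584, 403, 407, 329] (.node .nil [583, 449, 453, 459] .nil)) [135, 148, 92,
  46] (.node (.node (.node .nil [520, 237, 341, 251] .nil) [613, 346, 350, 76, 80] .nil) [520, 107,
  173, 109] (.node .nil [650, 201, 120, 61, 14, 1] .nil))) [583, 321, 327,
  337] (.node (.node (.node (.node .nil [521, 93, 159, 260, 365, 435] .nil) [584, 213, 217, 127]
  .nil) [615, 435, 437, 439] (.node .nil [102, 431, 435, 89, 93] .nil)) [513, 260, 364, 264,
  368] (.node (.node .nil [7, 322, 402, 450] .nil) [610, 480, 482, 338, 340] (.node .nil [9, 234,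
  338, 415, 460, 480] .nil)))) [1, 39, 93, 43, 97] (.node (.node (.node (.node (.node .nil [583, 83,
  93, 101] .nil) [513, 246, 350, 250, 354] .nil) [99, 461, 463, 139, 141] (.node .nil [610, 448,
  450, 218, 220] .nil)) [138, 328, 235, 148, 93, 46] (.node (.node .nil [74, 234, 249, 260, 269,
  274] .nil) [519, 133, 225, 329] (.node .nil [69, 321, 337, 283, 287] .nil))) [137, 424, 364, 269,
  172, 108] (.node (.node (.node (.node .nil [618, 233, 234, 237, 238, 241] .nil) [616, 191, 193,
  185] .nil) [519, 11, 51, 107] (.node .nil [72, 382, 386, 280] .nil)) [137, 448, 404, 337, 246,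
  156] (.node (.node .nil [674, 350, 310, 320, 294] .nil) [7, 58, 120, 202] (.node .nil [103, 134,
  136, 138] .nil)))))) [72, 460, 470, 424] (.node (.node (.node (.node (.node (.node (.node .nil
  [98, 405, 407, 131, 133] .nil) [98, 415, 417, 139, 141] .nil) [98, 335, 337, 67, 69] (.node .nil
  [137, 408, 342, 253, 162, 102] .nil)) [649, 221, 133, 70, 29, 7] (.node (.node (.node .nil [71,
  20, 26, 36] .nil) [585, 69, 81, 90, 99, 105] .nil) [647, 471, 435, 373] (.node .nil [9, 22, 70,
  139, 234, 338] .nil))) [584, 269, 275, 173] (.node (.node (.node (.node .nil [34, 201, 235, 15,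
  47] .nil) [104, 224, 226, 198] .nil) [74, 326, 337, 350, 363, 370] (.node .nil [8, 82, 148, 92]
  .nil)) [610, 362, 364, 90, 92] (.node (.node .nil [618, 431, 432, 435, 436, 439] .nil) [649, 453,
  413, 350, 259, 165] (.node .nil [71, 200, 202, 210] .nil)))) [103, 260, 262,
  264] (.node (.node (.node (.node (.node .nil [71, 92, 100, 106] .nil) [1, 259, 363, 263, 367]
  .nil) [73, 398, 402, 407, 414, 424] (.node .nil [138, 450, 407, 338, 249, 158] .nil)) [615, 81,
  83, 85] (.node (.node (.node .nil [65, 383, 387, 311, 315] .nil) [137, 480, 470, 435, 372, 274]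
  .nil) [106, 350, 353, 354, 357, 358] (.node .nil [8, 210, 314, 212] .nil))) [5, 27, 147, 33,
  153] (.node (.node (.node (.node .nil [520, 15, 63, 17] .nil) [4, 79, 245, 83, 249] .nil) [519,
  149, 249, 353] (.node .nil [513, 234, 338, 238, 342] .nil)) [0, 267, 371, 269, 373] (.node (.node
  .nil [135, 188, 114, 54] .nil) [8, 328, 406, 338] (.node .nil [8, 298, 394, 302] .nil))))) [8,
  420, 466, 430] (.node (.node (.node (.node (.node (.node .nil [8, 320, 400, 326] .nil) [72, 140,
  150, 84] .nil) [104, 468, 470, 444] (.node .nil [135, 298, 200, 120] .nil)) [98, 471, 473, 249,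
  251] (.node (.node (.node .nil [71, 80, 90, 98] .nil) [615, 237, 239, 241] .nil) [522, 25, 78,
  145, 244, 349] (.node .nil [73, 130, 136, 147, 156, 164] .nil))) [99, 435, 437, 93,
  95] (.node (.node (.node (.node .nil [584, 141, 151, 85] .nil) [616, 269, 271, 215] .nil) [97,
  357, 359, 153, 155] (.node .nil [519, 167, 269, 373] .nil)) [585, 223, 233, 246, 259,
  267] (.node (.node .nil [7, 106, 172, 274] .nil) [71, 66, 78, 88] (.node .nil [135, 158, 100, 50]
  .nil)))) [7, 246, 350, 422] (.node (.node (.node (.node (.node .nil [512, 234, 338, 236, 340]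
  .nil) [101, 467, 471, 245, 249] .nil) [72, 264, 272, 168] (.node .nil [546, 120, 148, 0, 10]
  .nil)) [546, 302, 338, 62, 100] (.node (.node .nil [135, 302, 202, 122] .nil) [8, 118, 200,
  120] (.node .nil [74, 406, 415, 424, 435, 440] .nil))) [7, 32, 86,
  152] (.node (.node (.node (.node .nil [584, 339, 353, 249] .nil) [583, 31, 41, 49] .nil) [647,
  131, 69, 27] (.node .nil [583, 311, 315, 317] .nil)) [72, 14, 16, 0] (.node (.node .nil [5, 349,
  467, 355, 473] .nil) [135, 402, 328, 234] (.node .nil [4, 231, 411, 235, 415] .nil))))))) [74,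
  322, 329, 338, 353, 364] (.node (.node (.node (.node (.node (.node (.node (.node .nil [519, 299,
  395, 443] .nil) [4, 349, 467, 353, 471] .nil) [7, 118, 200, 302] (.node .nil [103, 80, 82, 84]
  .nil)) [512, 68, 136, 70, 138] (.node (.node (.node .nil [7, 78, 144, 244] .nil) [32, 203, 249,
  123, 159] .nil) [674, 266, 212, 232, 200] (.node .nil [9, 10, 50, 107, 172, 274] .nil))) [583,
  455, 461, 471] (.node (.node (.node (.node .nil [614, 424, 428, 82, 86] .nil) [71, 260, 268, 274]
  .nil) [166, 213, 185, 197, 177] (.node .nil [7, 260, 364, 434] .nil)) [73, 450, 454, 461, 470,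
  476] (.node (.node .nil [584, 419, 429, 357] .nil) [99, 361, 363, 35, 37] (.node .nil [647, 73,
  31, 9] .nil)))) [520, 355, 427, 367] (.node (.node (.node (.node (.node .nil [98, 263, 265, 41,
  43] .nil) [33, 287, 291, 113, 115] .nil) [33, 295, 323, 119, 139] (.node .nil [7, 92, 158, 260]
  .nil)) [162, 423, 397, 401, 393] (.node (.node (.node .nil [583, 403, 407, 415] .nil) [5, 135,
  335, 141, 341] .nil) [585, 401, 405, 412, 423, 433] (.node .nil [544, 396, 424, 314, 364] .nil)))
  [9, 142, 238, 343, 418, 464] (.node (.node (.node (.node .nil [138, 478, 461, 424, 365, 268] .nil)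
  [104, 386, 388, 362] .nil) [71, 332, 342, 356] (.node .nil [74, 82, 93, 100, 107, 108] .nil)) [42,
  286, 291, 306, 343, 380] (.node (.node .nil [521, 249, 353, 424, 471, 485] .nil) [8, 414, 460,
  424] (.node .nil [103, 158, 160, 162] .nil))))) [8, 32, 86,
  42] (.node (.node (.node (.node (.node (.node .nil [73, 70, 82, 93, 100, 106] .nil) [71, 222, 232,
  246] .nil) [10, 72, 141, 236, 341, 416] (.node .nil [552, 257, 281, 259] .nil)) [512, 244, 348,
  246, 350] (.node (.node (.node .nil [71, 166, 172, 174] .nil) [585, 235, 249, 260, 269, 275] .nil)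
  [71, 226, 236, 250] (.node .nil [1, 233, 337, 237, 341] .nil))) [609, 234, 236, 70,
  72] (.node (.node (.node (.node .nil [546, 442, 454, 210, 260] .nil) [586, 225, 234, 249, 260,
  269] .nil) [99, 353, 355, 29, 31] (.node .nil [583, 409, 419, 429] .nil)) [1, 157, 259, 161,
  263] (.node (.node .nil [0, 249, 353, 251, 355] .nil) [610, 416, 418, 140, 142] (.node .nil [73,
  128, 132, 139, 148, 158] .nil)))) [514, 230, 334, 236, 340] (.node (.node (.node (.node (.node
  .nil [513, 362, 432, 366, 436] .nil) [40, 324, 376, 326] .nil) [650, 395, 302, 203, 122,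
  63] (.node .nil [72, 178, 182, 112] .nil)) [133, 333, 153, 285, 111] (.node (.node .nil [610, 412,
  414, 136, 138] .nil) [104, 362, 364, 314] (.node .nil [72, 138, 148, 82] .nil))) [616, 305, 307,
  291] (.node (.node (.node (.node .nil [610, 432, 434, 156, 158] .nil) [74, 194, 197, 200, 203,
  210] .nil) [65, 211, 213, 183, 185] (.node .nil [72, 260, 268, 166] .nil)) [519, 407, 455,
  479] (.node (.node .nil [103, 364, 366, 368] .nil) [611, 364, 366, 38, 40] (.node .nil [103, 232,
  234, 236] .nil)))))) [9, 38, 92, 159, 260, 364] (.node (.node (.node (.node (.node (.node (.node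
  .nil [106, 334, 337, 338, 341, 342] .nil) [5, 69, 233, 75, 239] .nil) [551, 189, 207, 253] (.node
  .nil [7, 14, 62, 124] .nil)) [71, 298, 302, 310] (.node (.node (.node .nil [647, 403, 329, 235]
  .nil) [650, 403, 328, 235, 148, 93] .nil) [522, 13, 58, 121, 202, 311] (.node .nil [138, 404, 337,
  246, 157, 98] .nil))) [584, 147, 157, 91] (.node (.node (.node (.node .nil [7, 158, 260, 364]
  .nil) [71, 68, 80, 90] .nil) [106, 256, 259, 260, 263, 264] (.node .nil [586, 83, 92, 101, 106,
  109] .nil)) [103, 36, 38, 40] (.node (.node .nil [104, 338, 340, 304] .nil) [73, 138, 148, 159,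
  166, 172] (.node .nil [647, 459, 423, 363] .nil)))) [8, 22, 70,
  28] (.node (.node (.node (.node (.node .nil [72, 336, 350, 246] .nil) [9, 70, 138, 235, 338, 414]
  .nil) [135, 222, 136, 80] (.node .nil [103, 234, 236, 238] .nil)) [583, 39, 47,
  51] (.node (.node (.node .nil [7, 28, 82, 148] .nil) [74, 132, 139, 148, 159, 166] .nil) [584, 83,
  93, 39] (.node .nil [135, 132, 70, 28] .nil))) [513, 82, 148, 86, 152] (.node (.node (.node (.node
  .nil [1, 249, 353, 253, 357] .nil) [519, 141, 237, 341] .nil) [135, 268, 172, 108] (.node .nil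
  [613, 420, 424, 144, 148] .nil)) [104, 68, 70, 56] (.node (.node .nil [7, 340, 416, 462] .nil)
  [520, 137, 233, 147] (.node .nil [585, 447, 451, 454, 461, 471] .nil))))) [613, 256, 260, 34,
  38] (.node (.node (.node (.node (.node (.node .nil [615, 353, 355, 357] .nil) [586, 139, 148, 159,
  166, 173] .nil) [40, 204, 250, 206] (.node .nil [650, 407, 338, 249, 158, 101] .nil)) [649, 329,
  235, 148, 93, 47] (.node (.node (.node .nil [103, 346, 348, 350] .nil) [520, 219, 321, 223] .nil)
  [520, 423, 469, 433] (.node .nil [106, 242, 245, 246, 249, 250] .nil))) [64, 327, 337, 299,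
  303] (.node (.node (.node (.node .nil [673, 266, 212, 246, 202] .nil) [647, 147, 91, 45] .nil)
  [135, 418, 356, 264] (.node .nil [514, 362, 432, 368, 438] .nil)) [135, 452, 412,
  350] (.node (.node .nil [101, 353, 357, 83, 87] .nil) [650, 353, 260, 167, 106, 53] (.node .nil
  [135, 322, 224, 138] .nil)))) [138, 398, 323, 224, 139, 82] (.node (.node (.node (.node (.node
  .nil [5, 77, 243, 83, 249] .nil) [101, 349, 353, 79, 83] .nil) [71, 330, 340, 354] (.node .nil
  [72, 164, 170, 104] .nil)) [584, 455, 461, 415] (.node (.node .nil [519, 219, 321, 401] .nil) [1,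
  71, 139, 75, 143] (.node .nil [519, 63, 125, 213] .nil))) [521, 129, 221, 322, 403,
  451] (.node (.node (.node (.node .nil [135, 234, 148, 92] .nil) [7, 68, 136, 232] .nil) [647, 227,
  141, 85] (.node .nil [609, 466, 468, 348, 350] .nil)) [72, 118, 120, 58] (.node (.node .nil [74,
  200, 203, 210, 213, 216] .nil) [137, 454, 414, 353, 260, 166] (.node .nil [10, 152, 253, 356, 429,
  474] .nil))))))))

def L : Tr (List Nat) :=
  .node (.node (.node (.node (.node (.node (.node .nil [460] .nil) [364, 328, 471] (.node .nil [108]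
  .nil)) [71, 128, 80] (.node (.node .nil [349, 83] .nil) [92, 445, 435, 81, 365] .nil))
  [149] (.node (.node (.node .nil [316, 212, 298, 315, 167] .nil) [466, 26] (.node .nil [82] .nil))
  [349, 26] (.node (.node .nil [328] .nil) [434, 365] .nil))) [146] (.node (.node (.node (.node .nil
  [233, 138, 414] .nil) [407, 322, 329, 81] (.node .nil [30] .nil)) [434, 372, 275, 70, 82,
  128] (.node (.node .nil [47, 235] .nil) [435, 81, 365] .nil)) [28, 132, 139] (.node (.node (.node
  .nil [314, 232, 11, 47, 172, 235] .nil) [311, 121, 81] (.node .nil [167] .nil)) [238, 233, 234,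
  241] (.node (.node .nil [373] .nil) [365] .nil)))) [258] (.node (.node (.node (.node (.node .nil
  [314, 401, 171, 172, 402] .nil) [200, 172, 234, 158, 133, 402, 407, 26] (.node .nil [80] .nil))
  [470, 80] (.node (.node .nil [257, 331, 47, 235] .nil) [329, 407, 81, 365] .nil)) [189,
  355] (.node (.node (.node .nil [212, 314, 232] .nil) [201, 10, 235, 61, 47] (.node .nil [174]
  .nil)) [404, 448, 412, 69, 81] (.node (.node .nil [274] .nil) [234, 365] .nil)))
  [425] (.node (.node (.node (.node .nil [326, 315, 320, 232, 329, 50, 235] .nil) [461, 92, 479,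
  415, 83, 365] (.node .nil [29] .nil)) [234, 471, 70, 82, 128] (.node (.node .nil [235] .nil) [328,
  434, 365] .nil)) [141, 172, 38, 234, 80] (.node (.node (.node .nil [414, 235] .nil) [51, 139, 328,
  107, 37, 235, 159, 61, 47, 81] .nil) [369, 265, 364, 253] (.node (.node .nil [173] .nil) [434]
  .nil))))) [422] (.node (.node (.node (.node (.node (.node .nil [101] .nil) [435, 365, 447, 407,
  93, 471] (.node .nil [129] .nil)) [158, 234, 70, 139, 29, 93, 128] (.node (.node .nil [363, 257,
  368] .nil) [328, 402, 224, 139, 407, 26] .nil)) [242, 80] (.node (.node (.node .nil [315, 320,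
  232, 167, 50, 172, 235] .nil) [406, 435, 26, 365] (.node .nil [132] .nil)) [237, 141, 70,
  251] (.node (.node .nil [92] .nil) [225, 365] .nil))) [261] (.node (.node (.node (.node .nil [213,
  316, 14, 63] .nil) [93, 406, 435, 83, 365] (.node .nil [349] .nil)) [439, 435, 80] (.node (.node
  .nil [402, 328, 235] .nil) [81, 365] .nil)) [29, 31] (.node (.node (.node .nil [172, 414, 235]
  .nil) [321, 328, 224, 37, 81] (.node .nil [53] .nil)) [415, 329, 235, 43, 162, 82,
  80] (.node (.node .nil [322] .nil) [268] .nil)))) [336] (.node (.node (.node (.node (.node .nil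
  [82, 414, 235] .nil) [236, 201, 52, 234, 158, 70, 81] (.node .nil [27] .nil)) [234, 415, 365, 70,
  82, 128] (.node (.node .nil [335, 47, 235] .nil) [469, 467] .nil)) [30, 26] (.node (.node (.node
  .nil [201, 216, 124, 127, 11, 47, 235] .nil) [120, 200, 51, 139, 328, 224, 37, 159, 81] (.node
  .nil [107] .nil)) [232, 236, 436, 462, 95, 26] (.node (.node .nil [225] .nil) [415, 365] .nil)))
  [339] (.node (.node (.node (.node .nil [213, 315, 172] .nil) [471, 348] (.node .nil [471] .nil))
  [244, 349, 25, 78] (.node (.node .nil [138] .nil) [224, 434, 365] .nil)) [87,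
  80] (.node (.node (.node .nil [348, 410, 69, 135] .nil) [295, 223, 139, 323, 61, 58] .nil) [368,
  364, 438, 356] (.node (.node .nil [220] .nil) [158] .nil)))))

def l0 : List (Nat × List Nat × List Nat) :=
  [(0, [422], [56]),
   (1, [258], [486]),
   (2, [336], [1068]),
   (3, [146], [106]),
   (4, [261], [666]),
   (5, [425], [1040]),
   (6, [339], [1144]),
   (7, [149], [360]),
   (8, [242, 80], [160, 54, 924, 342, 724, 1046, 858]),
   (9, [189, 355], [1052, 256, 724, 458, 284, 268]),
   (10, [30, 26], [96, 1114, 724]),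
   (11, [28, 132, 139], [15, 1196, 940, 1150]),
   (12, [29, 31], [1038, 340, 560]),
   (13, [141, 172, 38, 234, 80], [15, 13, 11, 9, 1106, 234, 17, 942, 656, 1084, 948, 772, 1180, 178,
  724, 380, 454, 1112, 520, 404, 590, 758, 620, 358, 748, 500, 304, 570, 246, 762, 596]),
   (14, [87, 80], [15, 17, 942, 656, 1084, 1196, 1180, 178, 1052, 256, 562, 38, 1058])]

def l1 : List (Nat × List Nat × List Nat) :=
  [(15, [71, 128, 80], [15, 13, 11, 9, 17, 942, 1180, 178, 1052, 256, 656, 1084, 1196, 562, 29, 120,
  566, 766, 948, 840, 354, 654, 444, 234, 1106, 872, 812, 980, 78, 684, 992, 100, 1042, 27, 468,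
  226, 352, 34, 826, 570, 246, 762, 596]),
   (16, [158, 234, 70, 139, 29, 93, 128], [15, 9, 13, 904, 1130, 1106, 1100, 980, 382, 570, 432, 136,
  754]),
   (17, [470, 80], [11, 15, 17, 942, 1180, 178, 1052, 656, 1084, 1196, 256, 562, 29, 120, 1092, 538,
  928, 896, 480, 760]),
   (18, [234, 415, 365, 70, 82, 128], [13, 9, 15, 948, 1196, 840, 1106, 904, 33, 570, 1130, 174, 762,
  1044, 432, 350, 684]),
   (19, [434, 372, 275, 70, 82, 128], [9, 13, 15, 11, 948, 840, 774, 914, 37, 660, 10, 884, 246, 350,
  1042, 476, 1044, 142, 446, 796, 176, 22, 1164]),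
   (20, [439, 435, 80], [1, 11, 15, 17, 942, 1180, 35, 516, 178, 1052, 656, 1084, 1196, 256, 562, 29,
  120, 1092, 538, 928, 926, 412, 336, 712, 1074, 24, 1094]),
   (21, [234, 471, 70, 82, 128], [15, 13, 9, 948, 1196, 840, 234, 1106, 33, 37, 174, 678, 836, 330,
  1044, 688, 1066, 190, 350, 1172]),
   (22, [244, 349, 25, 78], [408, 1156]),
   (23, [349, 26], [15, 7, 334, 21, 25, 1196, 882, 1166, 54, 45]),
   (24, [237, 141, 70, 251], [13, 1168, 554, 594]),
   (25, [404, 448, 412, 69, 81], [7, 5, 3, 206, 240, 908, 610, 648, 322]),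
   (26, [232, 236, 436, 462, 95, 26], [7, 15, 5, 1, 3, 9, 21, 25, 1196, 854, 1186, 334, 150, 206,
  532, 636, 542, 286, 972, 220, 784, 51, 64, 770, 270, 894, 700, 420, 402, 418, 1076, 510, 804,
  1100, 1002]),
   (27, [238, 233, 234, 241], [812, 1136]),
   (28, [415, 329, 235, 43, 162, 82, 80], [15, 9, 11, 13, 1164, 948, 354, 778, 840, 10, 826, 570,
  762, 992, 48, 674, 416, 94, 798, 350, 41, 1044, 22, 796]),
   (29, [369, 265, 364, 253], [7, 15, 3, 9, 658, 346, 148, 47, 258, 122, 572, 840, 1100, 992, 29,
  1196, 562, 20, 560, 742, 886, 960, 1134, 590])]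

def l2 : List (Nat × List Nat × List Nat) :=
  [(30, [368, 364, 438, 356], [7, 1, 256, 658, 346, 148, 47, 258, 35, 1054, 928, 412, 560, 756, 860,
  36, 18, 794, 490]),
   (31, [364, 328, 471], [9, 13, 836, 846, 392]),
   (32, [435, 365, 447, 407, 93, 471], [9, 13, 11, 740, 86, 6, 1104, 198, 434, 808, 318, 244, 1004,
  484]),
   (33, [200, 172, 234, 158, 133, 402, 407, 26], [15, 13, 3, 1, 11, 7, 47, 148, 1180, 942, 924, 658,
  256, 724, 424, 974, 21, 25, 1196, 732, 890, 344, 1138, 718, 766, 310, 704, 586, 608, 55, 664, 524,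
  1080, 274, 702, 1032, 438, 722, 1110, 610, 216, 164, 918, 672, 362]),
   (34, [236, 201, 52, 234, 158, 70, 81], [7, 15, 13, 5, 9, 3, 416, 234, 350, 258, 47, 148, 1180,
  942, 924, 150, 1080, 1012, 84, 702, 338, 386, 438, 236, 1050, 578, 610, 1174, 1182, 546]),
   (35, [407, 322, 329, 81], [7, 13, 15, 9, 258, 47, 148, 1180, 942, 924, 21, 25, 1196, 168, 898,
  272, 988, 720, 23, 130, 1150, 314, 306, 804, 796, 156, 984, 214, 1062, 688, 72, 67, 69, 494, 49,
  536]),
   (36, [93, 406, 435, 83, 365], [9, 13, 1072, 1104, 1010]),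
   (37, [461, 92, 479, 415, 83, 365], [11, 9, 1120, 884, 450, 350, 364, 1064, 844]),
   (38, [471, 348], [148, 1180, 942, 924, 724, 568, 152, 650]),
   (39, [466, 26], [15, 47, 148, 1180, 942, 924, 658, 256, 21, 25, 1196, 732, 890, 1162, 1158, 77,
  896, 480, 892]),
   (40, [406, 435, 26, 365], [15, 11, 47, 77, 8, 21, 25, 1196, 114, 73, 734, 75, 74]),
   (41, [201, 10, 235, 61, 47], [15, 1034, 1096, 824, 912]),
   (42, [120, 200, 51, 139, 328, 224, 37, 159, 81], [7, 15, 13, 5, 842, 258, 21, 25, 1196, 782, 150,
  496, 440, 792, 862, 644, 292, 374, 370, 850, 92, 752, 218, 642]),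
   (43, [311, 121, 81], [7, 15, 258, 21, 25, 1196, 782, 128, 278, 396]),
   (44, [321, 328, 224, 37, 81], [7, 5, 150, 80, 642, 218])]

def l3 : List (Nat × List Nat × List Nat) :=
  [(45, [51, 139, 328, 107, 37, 235, 159, 61, 47, 81], [13, 7, 3, 150, 778, 89, 614, 842, 368, 83,
  85, 990, 87, 752, 292, 260, 736, 626, 266, 224, 634]),
   (46, [295, 223, 139, 323, 61, 58], [3, 292, 252, 242, 1034, 266, 498, 968, 628]),
   (47, [92, 445, 435, 81, 365], [7, 9, 13, 15, 11, 5, 258, 81, 86, 47, 77, 8, 148, 1180, 942, 924,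
  658, 256, 21, 25, 1196, 732, 890, 1162, 708, 30, 782, 42, 150, 206, 144, 502, 804, 1148, 250, 162,
  174, 314, 778, 1064, 196, 188, 244, 1152, 0, 822, 1124, 842, 50, 326, 528, 768, 482, 514, 460,
  1150, 166, 89, 614, 91, 62, 93, 752, 66, 806, 194, 1194, 288, 672, 640, 1126, 46, 298, 1192, 894,
  612, 714, 26, 134, 584, 638, 530, 1018, 182]),
   (48, [328, 402, 224, 139, 407, 26], [15, 13, 11, 47, 77, 8, 21, 25, 1196, 504, 842, 10, 290, 296]),
   (49, [329, 407, 81, 365], [13, 570, 71]),
   (50, [469, 467], [11, 15, 7, 1, 1118, 830, 876]),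
   (51, [435, 81, 365], [7, 13, 9, 15, 258, 47, 77, 79, 101, 280, 81, 99, 986, 778, 95, 1104, 652,
  558, 97]),
   (52, [81, 365], [7, 11, 258, 47, 77, 103, 706]),
   (53, [328, 434, 365], [15, 13, 470, 32, 105, 17, 942, 656, 1084, 948, 842, 986, 202, 354, 50, 39,
  1170]),
   (54, [224, 434, 365], [15, 1, 11, 7, 3, 13, 5, 9, 105, 29, 1090, 35, 1054, 1132, 378, 1020, 566,
  17, 942, 656, 1084, 334, 104, 20, 914, 534, 107, 57, 872, 602, 812, 570, 734, 928, 544, 412, 948,
  1196, 840, 77, 178, 19, 658, 1086, 466, 16, 762, 214, 992, 1130, 48, 996, 478, 1140, 904, 582,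
  958, 76, 1078, 98, 212, 654, 938, 1176, 588, 300, 910, 608, 55, 216, 916, 512, 376, 600, 894, 750,
  716, 518, 814, 738, 70, 832, 116, 302, 228, 810, 550, 662, 944, 744, 1056, 1024, 548, 838, 262,
  820, 624, 180, 1178, 426, 324, 406, 372, 970, 1108, 1028, 1030]),
   (55, [434, 365], [7, 13, 11, 105, 29, 334, 1090, 35, 1054, 1132, 378, 1020, 104, 20, 534, 17, 942,
  656, 1084, 914, 107, 570, 57, 998, 90, 109, 898, 622, 22, 124, 31, 43]),
   (56, [225, 365], [13, 9, 11, 15, 105, 17, 942, 656, 1084, 840, 111, 1104, 416, 35, 6, 470, 778,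
  596, 234, 976, 580, 450, 1066, 802]),
   (57, [234, 365], [13, 9, 11, 113, 105, 35, 740, 111, 6, 434, 234, 976, 214, 1120]),
   (58, [415, 365], [7, 11, 13, 115, 105, 35, 740, 111, 86, 198, 29, 334, 1090, 1054, 1132, 378,
  1020, 104, 20, 534, 17, 942, 656, 1084, 318, 57, 488]),
   (59, [365], [9, 13, 11, 15, 470, 105, 17, 35, 942, 740, 656, 1084, 840, 111, 6, 1104, 434, 416,
  115, 117, 114, 484, 796, 808, 65, 1120, 410, 282, 156, 930])]

def l4 : List (Nat × List Nat × List Nat) :=
  [(60, [268], [119, 9, 678]),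
   (61, [434], [119, 9, 836]),
   (62, [158], [119, 9, 1100]),
   (63, [460], [119, 11, 826]),
   (64, [101], [125, 174]),
   (65, [314, 401, 171, 172, 402], [11, 119, 1, 7, 15, 932, 946, 164, 362, 1146]),
   (66, [82, 414, 235], [125, 129, 11, 123, 15, 9, 119, 3, 13, 7, 5, 778, 840, 1196, 948, 992, 25,
  354, 762, 21, 1044, 60, 258, 868, 384, 17, 29, 35, 41, 400, 942, 1090, 108, 1092, 77, 63, 392,
  1132, 534, 566, 178, 156, 61, 1154, 59, 312, 40, 348, 118, 960, 1022, 332, 852, 886, 500, 606,
  788, 1070, 1078, 786, 222, 934, 878, 366, 982, 294, 356, 776, 532, 14, 800, 576, 604, 110, 694,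
  954, 564, 828, 422, 1048, 131, 902, 102, 834, 698, 880, 874]),
   (67, [233, 138, 414], [7, 5, 492, 934, 692]),
   (68, [213, 316, 14, 63], [710, 956]),
   (69, [326, 315, 320, 232, 329, 50, 235], [1, 5, 129, 13, 894, 328, 398, 902, 102, 184, 818, 1190,
  1128, 696, 308, 1000, 462, 388, 137]),
   (70, [213, 315, 172], [11, 1088, 950, 672]),
   (71, [316, 212, 298, 315, 167], [506, 1026, 140, 170]),
   (72, [315, 320, 232, 167, 50, 172, 235], [121, 13, 119, 856, 846, 139, 146, 141, 143, 888, 752,
  140, 224]),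
   (73, [212, 314, 232], [119, 1, 436, 398, 936, 1116, 388, 994]),
   (74, [201, 216, 124, 127, 11, 47, 235], [1096, 1122, 780, 248, 966, 394])]

def l5 : List (Nat × List Nat × List Nat) :=
  [(75, [314, 232, 11, 47, 172, 235], [119, 946, 147, 1126, 592, 149, 526, 154, 764]),
   (76, [172, 414, 235], [121, 11, 129, 119, 9, 13, 125, 15, 5, 133, 114, 314, 660, 728, 112, 730,
  144, 12, 130, 172, 1006, 556, 460, 900, 690, 135, 532, 151, 145, 80, 668, 270, 816, 442]),
   (77, [414, 235], [121, 9, 125, 127, 15, 13, 119, 1, 3, 7, 660, 210, 230, 133, 153, 1082, 508, 540,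
  68, 1006, 556, 35, 138, 206, 258, 150, 200, 79, 692, 972, 1078, 101, 192, 456, 922, 920]),
   (78, [348, 410, 69, 135], [5, 148, 618, 962, 726, 864, 264]),
   (79, [349, 83], [7, 54, 47, 572, 258, 122]),
   (80, [363, 257, 368], [119, 3, 756, 18, 414]),
   (81, [257, 331, 47, 235], [11, 123, 15, 7, 13, 127, 3, 9, 119, 121, 5, 155, 10, 948, 159, 77, 35,
  150, 1008, 82, 132, 157, 238, 220, 148, 1180, 942, 924, 658, 256, 732, 890, 1162, 1184, 208, 126,
  49, 58, 660, 680, 330, 254, 952, 1188, 326, 428, 258, 21, 734, 778, 448, 590, 632, 161, 906, 2,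
  232, 390, 89, 158, 894, 474, 646, 870]),
   (82, [335, 47, 235], [11, 121, 15, 9, 119, 13, 123, 127, 3, 5, 7, 155, 10, 948, 159, 148, 1180,
  942, 924, 658, 256, 732, 890, 1162, 1184, 208, 756, 718, 20, 77, 35, 150, 1008, 82, 132, 157,
  1016, 126, 49, 58, 660, 680, 330, 254, 952, 1188, 326, 428, 258, 79, 101, 186, 21, 724, 616, 778,
  264, 676, 472, 574, 1014, 316, 464, 848, 964, 430, 682, 163, 686, 1060, 552, 204, 1142, 89, 53,
  894, 608]),
   (83, [47, 235], [11, 121, 119, 15, 13, 123, 127, 9, 7, 5, 155, 10, 948, 159, 77, 35, 150, 1008,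
  82, 132, 157, 1016, 148, 1180, 942, 924, 126, 49, 58, 660, 680, 330, 254, 952, 1188, 326, 428,
  658, 256, 168, 258, 866, 44, 778, 165, 630, 52, 1036, 338, 528, 1098, 276, 514, 88, 430, 163, 53,
  28, 608, 320, 1160, 89, 452, 894]),
   (84, [402, 328, 235], [15, 326, 167, 176]),
   (85, [235], [9, 127, 15, 121, 119, 13, 123, 11, 660, 155, 10, 58, 948, 159, 77, 680, 254, 330,
  952, 1188, 169]),
   (86, [138], [171, 13, 746]),
   (87, [328], [171, 15, 1106]),
   (88, [92], [171, 15, 1148]),
   (89, [274], [171, 9, 121, 688])]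

def l6 : List (Nat × List Nat × List Nat) :=
  [(90, [225], [171, 9, 121, 596]),
   (91, [373], [175, 13, 119, 330]),
   (92, [322], [175, 13, 119, 4]),
   (93, [173], [179, 121, 72]),
   (94, [220], [181, 171, 790]),
   (95, [108], [187, 11, 121, 119, 112]),
   (96, [129], [189, 185, 522]),
   (97, [80], [193, 171, 35, 31, 77, 43, 159]),
   (98, [27], [195, 7, 258]),
   (99, [30], [197, 21]),
   (100, [349], [197, 47]),
   (101, [29], [199, 25]),
   (102, [471], [201, 77]),
   (103, [82], [203, 15, 1196]),
   (104, [132], [203, 173, 23])]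

def l7 : List (Nat × List Nat × List Nat) :=
  [(105, [174], [205, 123, 183, 179, 978]),
   (106, [107], [207, 191, 129, 177, 730]),
   (107, [167], [209, 15, 173, 125, 670]),
   (108, [53], [211, 191, 598])]

def lems : List (Nat × List Nat × List Nat) :=
  l0 ++ (l1 ++ (l2 ++ (l3 ++ (l4 ++ (l5 ++ (l6 ++ (l7)))))))

def fx : List Nat := [247, 351, 248, 352]

def M0 : Nat := 13760991695940429069664925371813200114052264834592246728665818317031615010347309086100030015442050485321728

def last : List Nat :=
  [215, 213, 217, 1102]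

theorem hl0 : l0.all (chkOne B L M0) = true := by decide +kernel

theorem hl1 : l1.all (chkOne B L M0) = true := by decide +kernel

theorem hl2 : l2.all (chkOne B L M0) = true := by decide +kernel

theorem hl3 : l3.all (chkOne B L M0) = true := by decide +kernel

theorem hl4 : l4.all (chkOne B L M0) = true := by decide +kernel

theorem hl5 : l5.all (chkOne B L M0) = true := by decide +kernel

theorem hl6 : l6.all (chkOne B L M0) = true := by decide +kernel

theorem hl7 : l7.all (chkOne B L M0) = true := by decide +kernel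

theorem hlems : lems.all (chkOne B L M0) = true :=
  all_append' hl0 (all_append' hl1 (all_append' hl2 (all_append' hl3 (all_append' hl4 (all_append'
  hl5 (all_append' hl6 (hl7)))))))

theorem hB : B.all (chkRec ((((rectRules ++ [pat1]) ++ [pat2]) ++ [pat3]) ++ [pat4]) tab) = true := by decide +kernel

theorem chk (F : V → Bool) (hF : Respects F ((((rectRules ++ [pat1]) ++ [pat2]) ++ [pat3]) ++ [pat4])) :
    ¬ ∀ q ∈ pat5, F q.1 = q.2 :=
  stage tab B L fx M0 lems 109 last hB (by decide +kernel) (by decide +kernel)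
    (by decide +kernel) hlems (by decide +kernel) (by decide +kernel) F hF

end Run7.h569.Rect.C5
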