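import Mathlib

set_option autoImplicit false

namespace Run7.h569.Rect

/-- Vectors of the lattice spanned by `1, w, w^2, w^3`, `w` a primitive 12th root of unity. -/
abbrev V := Int × Int × Int × Int

/-- multiplication by `w` -/
def rot (v : V) : V := (-v.2.2.2, v.1, v.2.1 + v.2.2.2, v.2.2.1)

def rotn : Nat → V → V
  | 0, v => v
  | k + 1, v => rot (rotn k v)

theorem rot_add (v w : V) : rot (v + w) = rot v + rot w := by
  obtain ⟨a, b, c, d⟩ := v
  obtain ⟨a', b', c', d'⟩ := w
  simp only [rot, Prod.mk_add_mk, Prod.mk.injEq]
  refine ⟨by ring, trivial, by ring, trivial⟩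

theorem rotn_add (k : Nat) (v w : V) : rotn k (v + w) = rotn k v + rotn k w := by
  induction k with
  | zero => rfl
  | succ k ih => simp only [rotn, ih, rot_add]

theorem rotn_rotn (j k : Nat) (v : V) : rotn j (rotn k v) = rotn (j + k) v := by
  induction j with
  | zero => simp [rotn]
  | succ j ih => rw [Nat.succ_add]; simp only [rotn, ih]

/-- A coloured pattern. -/
abbrev Pat := List (V × Bool)

/-- `F` contains no copy (translated, rotated, with colours possibly swapped) of a pattern. -/
def Avoid (F : V → Bool) (p : Pat) : Prop :=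
  ∀ (t : V) (r : Nat) (s : Bool), ¬ ∀ q ∈ p, F (t + rotn r q.1) = (q.2 ^^ s)

def Respects (F : V → Bool) (rules : List Pat) : Prop := ∀ p ∈ rules, Avoid F p

theorem bool_aux1 : ∀ x y s s' : Bool, (x ^^ s) = (y ^^ s') → x = (y ^^ (s' ^^ s)) := by decide

theorem bool_aux2 : ∀ y s : Bool, ((y ^^ s) ^^ s) = y := by decide

theorem bool_aux3 : ∀ x y s : Bool, ((false : Bool) == (y ^^ s)) = true → ¬ x = true →
    x = (y ^^ s) := by decide

theorem bool_aux4 : ∀ x y s : Bool, ((true : Bool) == (y ^^ s)) = true → ¬ x = false →
    x = (y ^^ s) := by decide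

theorem Avoid.move {F : V → Bool} {p : Pat} (h : Avoid F p) (t : V) (r : Nat) (s : Bool) :
    Avoid (fun v => F (t + rotn r v) ^^ s) p := by
  intro t' r' s' hh
  refine h (t + rotn r t') (r + r') (s' ^^ s) ?_
  intro q hq
  have := hh q hq
  simp only [rotn_add, rotn_rotn] at this
  rw [add_assoc]
  exact bool_aux1 _ _ _ _ this

theorem Respects.move {F : V → Bool} {rules : List Pat} (h : Respects F rules) (t : V) (r : Nat)
    (s : Bool) : Respects (fun v => F (t + rotn r v) ^^ s) rules :=
  fun p hp => (h p hp).move t r s

/-- If no colouring respecting the rules has the pattern in standard position, then every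
colouring respecting the rules avoids the pattern. -/
theorem respects_cons {rules : List Pat} {p : Pat}
    (H : ∀ F : V → Bool, Respects F rules → ¬ ∀ q ∈ p, F q.1 = q.2)
    {F : V → Bool} (hF : Respects F rules) : Respects F (rules ++ [p]) := by
  intro q hq
  rcases List.mem_append.1 hq with hq | hq
  · exact hF q hq
  · rw [List.mem_singleton.1 hq]
    intro t r s hh
    refine H _ (hF.move t r s) ?_
    intro q hq
    have := hh q hq
    simp only [this]
    exact bool_aux2 _ _

/-! ### Propositional part -/

/-- literal `2 i` : variable `i` is true; literal `2 i + 1` : variable `i` is false. -/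
def LT (A : Nat → Bool) (l : Nat) : Prop := A (l / 2) = (l % 2 == 0)

def neg (l : Nat) : Nat := if l % 2 = 0 then l + 1 else l - 1

theorem LT_neg (A : Nat → Bool) (l : Nat) : LT A (neg l) ↔ ¬ LT A l := by
  unfold LT neg
  rcases Nat.mod_two_eq_zero_or_one l with h | h
  · rw [if_pos h]
    have h1 : (l + 1) / 2 = l / 2 := by omega
    have h2 : (l + 1) % 2 = 1 := by omega
    rw [h1, h2, h]
    cases A (l / 2) <;> simp
  · rw [if_neg (by omega)]
    have h1 : (l - 1) / 2 = l / 2 := by omega
    have h2 : (l - 1) % 2 = 0 := by omega
    rw [h1, h2, h]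
    cases A (l / 2) <;> simp

def Inv (A : Nat → Bool) (M : Nat) : Prop := ∀ l, M.testBit l = true → LT A l

def Sat (A : Nat → Bool) (c : List Nat) : Prop := ∃ l ∈ c, LT A l

def resid (M : Nat) : List Nat → List Nat
  | [] => []
  | l :: c => bif M.testBit (neg l) then resid M c else l :: resid M c

theorem sat_resid {A : Nat → Bool} {M : Nat} (hM : Inv A M) {c : List Nat} (hc : Sat A c) :
    Sat A (resid M c) := by
  induction c with
  | nil => exact hc
  | cons l c ih =>
    unfold resid
    obtain ⟨x, hx, hxl⟩ := hc
    cases hb : M.testBit (neg l) with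
    | true =>
      simp only [cond_true]
      rcases List.mem_cons.1 hx with rfl | hx
      · exact absurd hxl ((LT_neg A x).1 (hM _ hb))
      · exact ih ⟨x, hx, hxl⟩
    | false =>
      simp only [cond_false]
      rcases List.mem_cons.1 hx with rfl | hx
      · exact ⟨x, List.mem_cons_self, hxl⟩
      · obtain ⟨y, hy, hyl⟩ := ih ⟨x, hx, hxl⟩
        exact ⟨y, List.mem_cons_of_mem _ hy, hyl⟩

theorem inv_set {A : Nat → Bool} {M : Nat} (hM : Inv A M) {l : Nat} (hl : LT A l) :
    Inv A (M ||| (1 <<< l)) := by
  intro k hk
  rw [Nat.testBit_or, Bool.or_eq_true] at hk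
  rcases hk with hk | hk
  · exact hM k hk
  · rw [Nat.one_shiftLeft, Nat.testBit_two_pow] at hk
    have : l = k := by simpa using hk
    exact this ▸ hl

/-- unit propagation along a list of clause indices; `true` means that a conflict was reached -/
def prop (get : Nat → List Nat) : List Nat → Nat → Bool
  | [], _ => false
  | h :: hs, M =>
    match resid M (get h) with
    | [] => true
    | [l] =>
      match M ||| (1 <<< l) with
      | 0 => false
      | m + 1 => prop get hs (m + 1)
    | _ => false

theorem prop_sound {A : Nat → Bool} {get : Nat → List Nat} (hs : List Nat)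
    (hg : ∀ h ∈ hs, Sat A (get h)) (M : Nat) (hM : Inv A M) (hp : prop get hs M = true) :
    False := by
  induction hs generalizing M with
  | nil => simp [prop] at hp
  | cons h hs ih =>
    have hsat := sat_resid hM (hg h List.mem_cons_self)
    unfold prop at hp
    split at hp
    · next he =>
      rw [he] at hsat
      obtain ⟨x, hx, _⟩ := hsat
      simp at hx
    · next l he =>
      rw [he] at hsat
      obtain ⟨x, hx, hxl⟩ := hsat
      rw [List.mem_singleton.1 hx] at hxl
      have h2 := inv_set hM hxl
      split at hp
      · exact absurd hp (by simp)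
      · next m hm =>
        rw [hm] at h2
        exact ih (fun k hk => hg k (List.mem_cons_of_mem _ hk)) _ h2 hp
    · exact absurd hp (by simp)

/-- add to the assignment `M` the negations of the literals of a clause -/
def initM : List Nat → Nat → Nat
  | [], M => M
  | l :: c, M => initM c (M ||| (1 <<< neg l))

theorem inv_init {A : Nat → Bool} (c : List Nat) (hc : ∀ l ∈ c, ¬ LT A l) (M : Nat)
    (hM : Inv A M) : Inv A (initM c M) := by
  induction c generalizing M with
  | nil => exact hM
  | cons l c ih =>
    exact ih (fun k hk => hc k (List.mem_cons_of_mem _ hk)) _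
      (inv_set hM ((LT_neg A l).2 (hc l List.mem_cons_self)))

/-- static binary tries -/
inductive Tr (α : Type) : Type
  | nil : Tr α
  | node : Tr α → α → Tr α → Tr α

def Tr.get {α : Type} (dflt : α) : Tr α → Nat → α
  | .nil, _ => dflt
  | .node l v r, k =>
    match k with
    | 0 => v
    | m + 1 => bif m % 2 == 0 then l.get dflt (m / 2) else r.get dflt (m / 2)

def Tr.all {α : Type} (f : α → Bool) : Tr α → Bool
  | .nil => true
  | .node l v r => f v && (l.all f && r.all f)

theorem Tr.get_all {α : Type} {dflt : α} {f : α → Bool} (hd : f dflt = true) (t : Tr α)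
    (h : t.all f = true) (k : Nat) : f (t.get dflt k) = true := by
  induction t generalizing k with
  | nil => exact hd
  | node l v r ihl ihr =>
    simp only [Tr.all, Bool.and_eq_true] at h
    unfold Tr.get
    cases k with
    | zero => exact h.1
    | succ m =>
      dsimp only
      cases hb : m % 2 == 0 with
      | true => exact ihl h.2.1 _
      | false => exact ihr h.2.2 _

/-! ### Geometry part -/

/-- decode the `i`-th point of the table -/
def dec (tab : Nat) (i : Nat) : V :=
  let e := (tab >>> (16 * i)) % 65536
  (((e % 16 : Nat) : Int) - 8, ((e / 16 % 16 : Nat) : Int) - 8,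
    ((e / 256 % 16 : Nat) : Int) - 8, ((e / 4096 % 16 : Nat) : Int) - 8)

/-- literals of the clause which says that a rule does not occur at `t`, `r`, `s` -/
def chkLits (tab : Nat) (t : V) (r : Nat) (s : Bool) : Pat → List Nat → Bool
  | [], [] => true
  | q :: p, l :: c => (decide (dec tab (l / 2) = t + rotn r q.1)) &&
      ((l % 2 == 1) == (q.2 ^^ s)) && chkLits tab t r s p c
  | _, _ => false

def chkBody (tab : Nat) (m : Nat) : Option Pat → List Nat → Bool
  | some (q :: p), l :: c =>
      chkLits tab (dec tab (l / 2) - rotn (m / 32 % 16) q.1) (m / 32 % 16) (m / 512 == 1)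
        (q :: p) (l :: c)
  | _, _ => false

/-- a record is a list `m :: clause` where `m` encodes the number `m % 32` of a rule, a
rotation `m / 32 % 16` and a colour swap `m / 512` -/
def chkRec (rules : List Pat) (tab : Nat) : List Nat → Bool
  | [] => true
  | m :: c => chkBody tab m (rules[m % 32]?) c

theorem chkLits_sound {tab : Nat} {t : V} {r : Nat} {s : Bool} {F : V → Bool} (p : Pat)
    (c : List Nat) (h : chkLits tab t r s p c = true)
    (hn : ¬ Sat (fun i => F (dec tab i)) c) : ∀ q ∈ p, F (t + rotn r q.1) = (q.2 ^^ s) := by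
  induction p generalizing c with
  | nil => intro q hq; simp at hq
  | cons q p ih =>
    cases c with
    | nil => simp [chkLits] at h
    | cons l c =>
      simp only [chkLits, Bool.and_eq_true, decide_eq_true_eq] at h
      obtain ⟨⟨h1, h2⟩, h3⟩ := h
      intro q' hq'
      rcases List.mem_cons.1 hq' with rfl | hq'
      · have hl : ¬ LT (fun i => F (dec tab i)) l := fun hl => hn ⟨l, List.mem_cons_self, hl⟩
        unfold LT at hl
        simp only [h1] at hl
        rcases Nat.mod_two_eq_zero_or_one l with hm | hm
        · rw [hm] at h2 hl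
          exact bool_aux3 _ _ _ h2 hl
        · rw [hm] at h2 hl
          exact bool_aux4 _ _ _ h2 hl
      · exact ih c h3 (fun ⟨x, hx, hxl⟩ => hn ⟨x, List.mem_cons_of_mem _ hx, hxl⟩) q' hq'

/-- the trivial clause -/
def taut : List Nat := [0, 1]

theorem sat_taut (A : Nat → Bool) : Sat A taut := by
  by_cases h : LT A 0
  · exact ⟨0, by simp [taut], h⟩
  · exact ⟨1, by simp [taut], (LT_neg A 0).2 h⟩

/-- the clause of a record -/
def recClause : List Nat → List Nat
  | [] => taut
  | _ :: c => c

theorem chkRec_sound {rules : List Pat} {tab : Nat} {F : V → Bool} (hF : Respects F rules)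
    (R : List Nat) (h : chkRec rules tab R = true) :
    Sat (fun i => F (dec tab i)) (recClause R) := by
  cases R with
  | nil => exact sat_taut _
  | cons m c =>
    change chkBody tab m (rules[m % 32]?) c = true at h
    by_contra hn
    cases ho : rules[m % 32]? with
    | none => rw [ho] at h; simp [chkBody] at h
    | some p =>
      rw [ho] at h
      cases p with
      | nil => simp [chkBody] at h
      | cons q p =>
        cases c with
        | nil => simp [chkBody] at h
        | cons l c =>
          unfold chkBody at h
          exact hF _ (List.mem_of_getElem? ho) _ _ _ (chkLits_sound _ _ h hn)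

/-- hint `2 i` : base clause number `i`; hint `2 i + 1` : lemma number `i`. -/
def getC (B : Tr (List Nat)) (L : Tr (List Nat)) (h : Nat) : List Nat :=
  bif h % 2 == 0 then recClause (B.get [] (h / 2)) else L.get taut (h / 2)

/-- run a unit propagation starting from an evaluated assignment -/
def prop' (get : Nat → List Nat) (hs : List Nat) (M : Nat) : Bool :=
  match M with
  | 0 => prop get hs 0
  | m + 1 => prop get hs (m + 1)

theorem prop'_eq (get : Nat → List Nat) (hs : List Nat) (M : Nat) :
    prop' get hs M = prop get hs M := by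
  cases M <;> rfl

/-- check of a lemma `(number, clause, hints)` -/
def chkOne (B L : Tr (List Nat)) (M0 : Nat) (x : Nat × List Nat × List Nat) : Bool :=
  (L.get taut x.1 == x.2.1) && (x.2.2.all (fun h => (h % 2 == 0) || Nat.blt (h / 2) x.1) &&
      prop' (getC B L) x.2.2 (initM x.2.1 M0))

theorem getC_sat {A : Nat → Bool} {B L : Tr (List Nat)}
    (hB : ∀ k, Sat A (recClause (B.get [] k))) {i : Nat} (hL : ∀ k < i, Sat A (L.get taut k)) {h : Nat}
    (hh : ((h % 2 == 0) || Nat.blt (h / 2) i) = true) : Sat A (getC B L h) := by
  unfold getC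
  cases hb : h % 2 == 0 with
  | true => exact hB _
  | false =>
    rw [hb, Bool.false_or] at hh
    exact hL _ (by simpa [Nat.blt_eq] using hh)

theorem chkLems_sound {A : Nat → Bool} {B L : Tr (List Nat)} {M0 : Nat}
    (hB : ∀ k, Sat A (recClause (B.get [] k))) (hM : Inv A M0)
    (lems : List (Nat × List Nat × List Nat)) (n : Nat)
    (hn : lems.map Prod.fst = List.range n)
    (h : lems.all (chkOne B L M0) = true) (k : Nat) (hk : k < n) : Sat A (L.get taut k) := by
  induction k using Nat.strong_induction_on with
  | _ k ih =>
    have hmem : k ∈ lems.map Prod.fst := by rw [hn]; exact List.mem_range.2 hk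
    obtain ⟨x, hx, rfl⟩ := List.mem_map.1 hmem
    have h1 := List.all_eq_true.1 h x hx
    simp only [chkOne, Bool.and_eq_true, prop'_eq] at h1
    obtain ⟨h1, h2, h3⟩ := h1
    have h1' : L.get taut x.1 = x.2.1 := by simpa using h1
    rw [h1']
    by_contra hc
    refine prop_sound x.2.2 ?_ _ (inv_init x.2.1 (fun l hl hlt => hc ⟨l, hl, hlt⟩) M0 hM) h3
    intro g hg
    exact getC_sat hB (i := x.1) (fun j hj => ih j hj (by omega)) (List.all_eq_true.1 h2 g hg)

theorem chkLits_fix {tab : Nat} {F : V → Bool} (p : Pat) (c : List Nat)
    (h : chkLits tab 0 0 true p c = true) (hp : ∀ q ∈ p, F q.1 = q.2) :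
    ∀ l ∈ c, LT (fun i => F (dec tab i)) l := by
  induction p generalizing c with
  | nil =>
    cases c with
    | nil => intro l hl; simp at hl
    | cons l c => simp [chkLits] at h
  | cons q p ih =>
    cases c with
    | nil => simp [chkLits] at h
    | cons l c =>
      simp only [chkLits, Bool.and_eq_true, decide_eq_true_eq] at h
      obtain ⟨⟨h1, h2⟩, h3⟩ := h
      intro l' hl'
      rcases List.mem_cons.1 hl' with rfl | hl'
      · have h4 := hp q List.mem_cons_self
        have h5 : dec tab (l' / 2) = q.1 := by
          rw [h1]; simp only [rotn, zero_add]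
        unfold LT
        simp only [h5, h4]
        rcases Nat.mod_two_eq_zero_or_one l' with hm | hm
        · rw [hm] at h2 ⊢
          revert h2; cases q.2 <;> decide
        · rw [hm] at h2 ⊢
          revert h2; cases q.2 <;> decide
      · exact ih c h3 (fun q hq => hp q (List.mem_cons_of_mem _ hq)) l' hl'

/-- the assignment given by the pattern -/
def fixM : List Nat → Nat
  | [] => 0
  | l :: c => fixM c ||| (1 <<< l)

theorem fixM_inv {A : Nat → Bool} (c : List Nat) (hc : ∀ l ∈ c, LT A l) : Inv A (fixM c) := by
  induction c with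
  | nil => intro l hl; simp [fixM] at hl
  | cons l c ih =>
    exact inv_set (ih fun k hk => hc k (List.mem_cons_of_mem _ hk)) (hc l List.mem_cons_self)

theorem stage {rules : List Pat} {p : Pat} (tab : Nat) (B L : Tr (List Nat))
    (fx : List Nat) (M0 : Nat) (lems : List (Nat × List Nat × List Nat)) (n : Nat)
    (last : List Nat)
    (h1 : B.all (chkRec rules tab) = true)
    (h2 : chkLits tab 0 0 true p fx = true) (h3 : fixM fx = M0)
    (h4 : lems.map Prod.fst = List.range n)
    (h5 : lems.all (chkOne B L M0) = true)
    (h6 : last.all (fun h => (h % 2 == 0) || Nat.blt (h / 2) n) = true)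
    (h7 : prop' (getC B L) last M0 = true) (F : V → Bool) (hF : Respects F rules) :
    ¬ ∀ q ∈ p, F q.1 = q.2 := by
  rw [prop'_eq] at h7
  intro hp
  set A : Nat → Bool := fun i => F (dec tab i) with hA
  have hM : Inv A M0 := h3 ▸ fixM_inv fx (chkLits_fix p fx h2 hp)
  have hB : ∀ k, Sat A (recClause (B.get [] k)) :=
    fun k => chkRec_sound hF _ (Tr.get_all (by rfl) B h1 k)
  have hL := chkLems_sound hB hM lems n h4 h5
  refine prop_sound last ?_ M0 hM h7
  intro g hg
  exact getC_sat hB (i := n) (fun k hk => hL k hk) (List.all_eq_true.1 h6 g hg)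

theorem all_append' {α : Type} {f : α → Bool} {l m : List α} (h1 : l.all f = true)
    (h2 : m.all f = true) : (l ++ m).all f = true := by
  rw [List.all_append, h1, h2]; rfl

end Run7.h569.Rect
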