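import Pool.Agent.Run7.h569.Rect.C1
import Pool.Agent.Run7.h569.Rect.C2
import Pool.Agent.Run7.h569.Rect.C3
import Pool.Agent.Run7.h569.Rect.C4
import Pool.Agent.Run7.h569.Rect.C5
import Pool.Agent.Run7.h569.Rect.C6

set_option autoImplicit false

namespace Run7.h569.Rect

open Complex

theorem no_colouring (F : V → Bool) (h0 : Respects F rectRules) : False := by
  have h1 := respects_cons C1.chk h0
  have h2 := respects_cons C2.chk h1
  have h3 := respects_cons C3.chk h2
  have h4 := respects_cons C4.chk h3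
  have h5 := respects_cons C5.chk h4
  have h6 := respects_cons C6.chk h5
  refine h6 pat6 (by simp) 0 0 (!(F (0 + rotn 0 (0, 0, 0, 0)))) ?_
  intro q hq
  simp only [pat6, List.mem_singleton] at hq
  subst hq
  simp

/-- a primitive 12th root of unity -/
noncomputable def zt : ℂ := ⟨Real.sqrt 3 / 2, 1 / 2⟩

theorem zt_sq : zt ^ 2 = ⟨1 / 2, Real.sqrt 3 / 2⟩ := by
  have h : Real.sqrt 3 * Real.sqrt 3 = 3 := Real.mul_self_sqrt (by norm_num)
  rw [pow_two, Complex.ext_iff]
  simp only [zt, Complex.mul_re, Complex.mul_im]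
  constructor
  · nlinarith [h]
  · ring

theorem zt_cube : zt ^ 3 = I := by
  have h : Real.sqrt 3 * Real.sqrt 3 = 3 := Real.mul_self_sqrt (by norm_num)
  rw [pow_succ, zt_sq, Complex.ext_iff]
  simp only [zt, Complex.mul_re, Complex.mul_im, Complex.I_re, Complex.I_im]
  constructor
  · ring
  · nlinarith [h]

theorem zt_four : zt ^ 4 = zt ^ 2 - 1 := by
  rw [pow_succ, zt_cube, zt_sq, Complex.ext_iff]
  simp only [zt, Complex.mul_re, Complex.mul_im, Complex.I_re, Complex.I_im, Complex.sub_re,
    Complex.sub_im, Complex.one_re, Complex.one_im]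
  constructor <;> ring

theorem norm_zt : ‖zt‖ = 1 := by
  have h : ‖zt‖ ^ 12 = 1 := by
    rw [← norm_pow, show zt ^ 12 = (zt ^ 3) ^ 4 by ring, zt_cube, Complex.I_pow_four, norm_one]
  exact (pow_eq_one_iff_of_nonneg (norm_nonneg _) (by norm_num)).1 h

noncomputable def val (v : V) : ℂ := v.1 + v.2.1 * zt + v.2.2.1 * zt ^ 2 + v.2.2.2 * zt ^ 3

theorem val_add (v w : V) : val (v + w) = val v + val w := by
  obtain ⟨a, b, c, d⟩ := v
  obtain ⟨a', b', c', d'⟩ := w
  simp only [val, Prod.mk_add_mk]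
  push_cast
  ring

theorem val_rot (v : V) : val (rot v) = zt * val v := by
  obtain ⟨a, b, c, d⟩ := v
  simp only [val, rot]
  push_cast
  linear_combination (-(d : ℂ)) * zt_four

theorem val_rotn (r : ℕ) (v : V) : val (rotn r v) = zt ^ r * val v := by
  induction r with
  | zero => simp [rotn]
  | succ r ih => rw [rotn, val_rot, ih]; ring

theorem val_zero : val (0, 0, 0, 0) = 0 := by simp [val]

theorem val_m (m : ℤ) : val (m, 0, 0, 0) = m := by simp [val]

theorem val_n (n : ℤ) : val (0, 0, 0, n) = n * I := by simp [val, zt_cube]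

theorem val_mn (m n : ℤ) : val (m, 0, 0, n) = m + n * I := by simp [val, zt_cube]

theorem complex_version (c : ℂ → Bool) : ∃ m ∈ ({1, 2} : Set ℕ), ∃ n ∈ ({1, 2, 3, 4} : Set ℕ),
    ∃ (T u : ℂ) (b : Bool), ‖u‖ = 1 ∧ c (T + u * 0) = b ∧ c (T + u * m) = b ∧
      c (T + u * (n * I)) = b ∧ c (T + u * (m + n * I)) = b := by
  by_contra hcon
  refine no_colouring (fun v => c (val v)) ?_
  have key : ∀ m n : ℕ, m ∈ ({1, 2} : Set ℕ) → n ∈ ({1, 2, 3, 4} : Set ℕ) →
      Avoid (fun v => c (val v)) [((0, 0, 0, 0), true), (((m : ℤ), 0, 0, 0), true),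
        ((0, 0, 0, (n : ℤ)), true), (((m : ℤ), 0, 0, (n : ℤ)), true)] := by
    intro m n hm hn t r s hh
    refine hcon ⟨m, hm, n, hn, val t, zt ^ r, (true ^^ s), ?_, ?_, ?_, ?_, ?_⟩
    · rw [norm_pow, norm_zt, one_pow]
    · have := hh ((0, 0, 0, 0), true) (by simp)
      simpa only [val_add, val_rotn, val_zero] using this
    · have := hh (((m : ℤ), 0, 0, 0), true) (by simp)
      simpa only [val_add, val_rotn, val_m, Int.cast_natCast] using this
    · have := hh ((0, 0, 0, (n : ℤ)), true) (by simp)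
      simpa only [val_add, val_rotn, val_n, Int.cast_natCast] using this
    · have := hh (((m : ℤ), 0, 0, (n : ℤ)), true) (by simp)
      simpa only [val_add, val_rotn, val_mn, Int.cast_natCast] using this
  intro p hp
  simp only [rectRules, List.mem_cons, List.not_mem_nil, or_false] at hp
  rcases hp with rfl | rfl | rfl | rfl | rfl | rfl | rfl
  · exact key 1 1 (by simp) (by simp)
  · exact key 1 2 (by simp) (by simp)
  · exact key 1 3 (by simp) (by simp)
  · exact key 1 4 (by simp) (by simp)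
  · exact key 2 2 (by simp) (by simp)
  · exact key 2 3 (by simp) (by simp)
  · exact key 2 4 (by simp) (by simp)

end Run7.h569.Rect
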