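import Pool.Agent.Run7.h569.Rect.Check

set_option autoImplicit false

namespace Run7.h569.Rect

/-- the seven rectangles, all four vertices of one colour -/
def rectRules : List Pat :=
  [[((0, 0, 0, 0), true), ((1, 0, 0, 0), true), ((0, 0, 0, 1), true), ((1, 0, 0, 1), true)],
   [((0, 0, 0, 0), true), ((1, 0, 0, 0), true), ((0, 0, 0, 2), true), ((1, 0, 0, 2), true)],
   [((0, 0, 0, 0), true), ((1, 0, 0, 0), true), ((0, 0, 0, 3), true), ((1, 0, 0, 3), true)],
   [((0, 0, 0, 0), true), ((1, 0, 0, 0), true), ((0, 0, 0, 4), true), ((1, 0, 0, 4), true)],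
   [((0, 0, 0, 0), true), ((2, 0, 0, 0), true), ((0, 0, 0, 2), true), ((2, 0, 0, 2), true)],
   [((0, 0, 0, 0), true), ((2, 0, 0, 0), true), ((0, 0, 0, 3), true), ((2, 0, 0, 3), true)],
   [((0, 0, 0, 0), true), ((2, 0, 0, 0), true), ((0, 0, 0, 4), true), ((2, 0, 0, 4), true)]]

def pat1 : Pat := [((-1, 0, 0, 0), false), ((0, 0, 0, 0), false), ((1, 0, 0, 0), false)]

def pat2 : Pat := [((0, 0, 0, 0), false), ((1, 0, 0, 0), false), ((0, 0, 1, 0), false)]

def pat3 : Pat := [((-2, 0, 0, 0), false), ((-1, 0, 0, 0), false), ((0, 0, 0, 0), true), ((1, 0, 0, 0), false), ((2, 0, 0, 0), false)]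

def pat4 : Pat := [((-2, 0, 0, 0), false), ((-1, 0, 0, 0), true), ((0, 0, 0, 0), false), ((1, 0, 0, 0), true), ((2, 0, 0, 0), false)]

def pat5 : Pat := [((0, 0, 0, -1), false), ((1, 0, 0, -1), false), ((0, 0, 0, 0), true), ((1, 0, 0, 0), true)]

def pat6 : Pat := [((0, 0, 0, 0), true)]

end Run7.h569.Rect
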